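import Pool.Agent.H24.LG.Defs
import Pool.Agent.H41.UN.Avo

/-!
# Row Apx: the global first equation (project MP_204867_LG)

`finite_max`: for `z ∉ P` the set of maximal ideals containing `P` and `z` is finite. Proof: such an ideal `m` is a minimal prime over
`P ⊔ (z)`: a prime `q` with `P ⊔ (z) ≤ q ≤ m` satisfies `P < q` (`z ∈ q`, `z ∉ P`), so is maximal, so `q = m`.
`Ideal.finite_minimalPrimes_of_isNoetherianRing`.

`exists_g`. Proof. `S` is a finite set of maximal ideals containing every maximal `m ≥ P` with `d ∈ m`.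
(1) `e : Ideal R → R` with `e m - 1 ∈ m^N` and `e m ∈ m'^N` for `m' ≠ m` in `S` (Chinese remainder theorem for the pairwise coprime ideals
`m^N`; `Ideal.exists_forall_sub_mem_ideal`, see the use in `STCI.UN.exists_crt` of file `H41/UN/Avo.lean`; `Ideal.IsMaximal` distinct ⇒
`IsCoprime`, `IsCoprime.pow`). `g0 = ∑_{m ∈ S} e m * a m`: `g0 - a m ∈ m^N * P` for `m ∈ S`.
(2) `d g0 = α0 x + β0 y` (`g0 ∈ P`, `hgen`). We look for `g = g0 + n1 x + n2 y` with `n1, n2 ∈ m^N` for all `m ∈ S`: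
`g - a m ∈ m^N * P`, and `d g = (α0 + d n1) x + (β0 + d n2) y`.
(3) `n1`: if `α0 ∉ P` take `n1 = 0`. Otherwise take `n1 ∉ P` in all `m^N`, `m ∈ S` (a product of elements `t_m^N`, `t_m ∈ m`, `t_m ∉ P`; these
exist as `m ≠ P` by `hPS`): `α0 + d n1 ∉ P`. In both cases `α := α0 + d n1 ∉ P`.
(4) `S1` = the finite set (`finite_max`) of maximal ideals `m ≥ P`, `m ∋ α`, `m ∉ S`. By the Chinese remainder theorem (over `S ∪ S1`) take
`n2 ∈ m^N` for `m ∈ S` and `n2 - c_m ∈ m` for `m ∈ S1`, where `c_m = 0` if `β0 ∉ m` and `c_m = 1` if `β0 ∈ m`; `d ∉ m` for `m ∈ S1`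
(else `m ∈ S`), so `β0 + d n2 ∉ m`.
-/

set_option autoImplicit false

namespace STCI.LG

universe u

theorem Apx_crt {R : Type u} [CommRing R] (T : Finset (Ideal R)) (hT : ∀ q ∈ T, q.IsMaximal)
    (c : Ideal R → R) (N : ℕ) : ∃ e : R, ∀ q ∈ T, e - c q ∈ q ^ N := by
  classical
  have hco : Pairwise (Function.onFun IsCoprime fun q : {q // q ∈ T} => (q.1 ^ N : Ideal R)) := by
    intro q q' hqq
    have h1 := hT q.1 q.2
    have h2 := hT q'.1 q'.2
    exact (Ideal.isCoprime_of_isMaximal fun h => hqq (Subtype.ext h)).pow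
  obtain ⟨e, he⟩ := Ideal.exists_forall_sub_mem_ideal hco
    (fun q : {q // q ∈ T} => c q.1)
  exact ⟨e, fun q hq => he ⟨q, hq⟩⟩

theorem finite_max {R : Type u} [CommRing R] [IsNoetherianRing R] (P : Ideal R) [P.IsPrime]
    (hdim : OneDim P) (z : R) (hz : z ∉ P) :
    {m : Ideal R | m.IsMaximal ∧ P ≤ m ∧ z ∈ m}.Finite := by
  refine (Ideal.finite_minimalPrimes_of_isNoetherianRing R (P ⊔ Ideal.span {z})).subset ?_
  rintro m ⟨hm, hPm, hzm⟩
  refine ⟨⟨hm.isPrime, sup_le hPm ((Ideal.span_singleton_le_iff_mem m).2 hzm)⟩, ?_⟩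
  rintro q ⟨hq, hle⟩ hqm
  have hPq : P < q := by
    refine lt_of_le_of_ne (le_sup_left.trans hle) ?_
    rintro rfl
    exact hz (hle (Ideal.mem_sup_right (Ideal.mem_span_singleton_self z)))
  have hqmax := hdim q hq hPq
  exact (hqmax.eq_of_le hm.ne_top hqm).ge

theorem exists_g {R : Type u} [CommRing R] [IsNoetherianRing R] (P : Ideal R) [P.IsPrime]
    (hdim : OneDim P) (x y d : R) (hx : x ∈ P) (hy : y ∈ P) (hd : d ∉ P)
    (hgen : ∀ p ∈ P, d * p ∈ Ideal.span {x, y}) (S : Finset (Ideal R))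
    (hS : ∀ m ∈ S, m.IsMaximal) (hPS : ∀ m ∈ S, P < m)
    (hdS : ∀ m : Ideal R, m.IsMaximal → P ≤ m → d ∈ m → m ∈ S)
    (a : Ideal R → R) (ha : ∀ m ∈ S, a m ∈ P) (N : ℕ) :
    ∃ g ∈ P, (∀ m ∈ S, g - a m ∈ m ^ N * P) ∧
      ∀ m : Ideal R, m.IsMaximal → P ≤ m → m ∉ S →
        ∃ α β : R, (α ∉ m ∨ β ∉ m) ∧ d * g = α * x + β * y := by
  classical
  have hP : P.IsPrime := inferInstance
  -- step 1
  have he : ∀ m : Ideal R, ∃ e : R, ∀ q ∈ S, e - (if q = m then 1 else 0) ∈ q ^ N := fun m =>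
    Apx_crt S hS (fun q => if q = m then 1 else 0) N
  choose e he using he
  set g0 : R := ∑ m ∈ S, e m * a m with hg0
  have hg0P : g0 ∈ P := Ideal.sum_mem _ fun m hm => P.mul_mem_left _ (ha m hm)
  have hg0S : ∀ m ∈ S, g0 - a m ∈ m ^ N * P := by
    intro m hm
    have h1 : g0 - a m = (e m - 1) * a m + ∑ q ∈ S.erase m, e q * a q := by
      rw [hg0, ← Finset.add_sum_erase S _ hm]
      ring
    rw [h1]
    refine Ideal.add_mem _ (Ideal.mul_mem_mul ?_ (ha m hm)) (Ideal.sum_mem _ fun q hq => ?_)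
    · have := he m m hm
      rwa [if_pos rfl] at this
    · have hq1 := Finset.mem_erase.1 hq
      have := he q m hm
      rw [if_neg (fun h => hq1.1 h.symm), sub_zero] at this
      exact Ideal.mul_mem_mul this (ha q hq1.2)
  -- step 2
  obtain ⟨α0, β0, h0⟩ := Ideal.mem_span_pair.1 (hgen g0 hg0P)
  -- step 3
  obtain ⟨t, ht, htP⟩ : ∃ t ∈ ∏ m ∈ S, m ^ N, t ∉ P := by
    by_contra hcon
    push Not at hcon
    have hle : ∏ m ∈ S, m ^ N ≤ P := fun t ht => hcon t ht
    obtain ⟨m, hm, hmP⟩ := (hP.prod_le).1 hle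
    exact absurd (hP.le_of_pow_le hmP) (not_le_of_gt (hPS m hm))
  have htm : ∀ m ∈ S, t ∈ m ^ N := fun m hm =>
    (Ideal.prod_le_inf.trans (Finset.inf_le hm)) ht
  obtain ⟨n1, hn1, hα⟩ : ∃ n1 : R, (∀ m ∈ S, n1 ∈ m ^ N) ∧ α0 + d * n1 ∉ P := by
    by_cases h : α0 ∈ P
    · refine ⟨t, htm, fun hc => ?_⟩
      have h2 : d * t ∈ P := by
        have := P.sub_mem hc h
        rwa [add_sub_cancel_left] at this
      exact (hP.mem_or_mem h2).elim hd htP
    · exact ⟨0, fun m _ => Ideal.zero_mem _, by rwa [mul_zero, add_zero]⟩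
  -- step 4
  set α : R := α0 + d * n1 with hαdef
  have hfin := finite_max P hdim α hα
  obtain ⟨n2, hn2⟩ := Apx_crt (S ∪ hfin.toFinset) (fun q hq => by
    rcases Finset.mem_union.1 hq with h | h
    · exact hS q h
    · exact ((hfin.mem_toFinset).1 h).1)
    (fun q => if q ∈ S then 0 else if β0 ∈ q then 1 else 0) (N + 1)
  have hn2S : ∀ m ∈ S, n2 ∈ m ^ N := by
    intro m hm
    have := hn2 m (Finset.mem_union_left _ hm)
    rw [if_pos hm, sub_zero] at this
    exact Ideal.pow_le_pow_right (Nat.le_succ N) this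
  refine ⟨g0 + n1 * x + n2 * y, ?_, fun m hm => ?_, fun m hm hPm hmS => ?_⟩
  · exact P.add_mem (P.add_mem hg0P (P.mul_mem_left _ hx)) (P.mul_mem_left _ hy)
  · have h1 : g0 + n1 * x + n2 * y - a m = (g0 - a m) + n1 * x + n2 * y := by ring
    rw [h1]
    exact Ideal.add_mem _ (Ideal.add_mem _ (hg0S m hm) (Ideal.mul_mem_mul (hn1 m hm) hx))
      (Ideal.mul_mem_mul (hn2S m hm) hy)
  · refine ⟨α, β0 + d * n2, ?_, ?_⟩
    · by_contra hcon
      push Not at hcon
      obtain ⟨h1, h2⟩ := hcon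
      have hmT : m ∈ hfin.toFinset := (hfin.mem_toFinset).2 ⟨hm, hPm, h1⟩
      have h3 := hn2 m (Finset.mem_union_right _ hmT)
      have h4 : n2 - (if β0 ∈ m then 1 else 0) ∈ m := by
        rw [if_neg hmS] at h3
        exact Ideal.pow_le_self (Nat.succ_ne_zero N) h3
      by_cases hβ : β0 ∈ m
      · rw [if_pos hβ] at h4
        have h5 : d * n2 ∈ m := by
          have := m.sub_mem h2 hβ
          rwa [add_sub_cancel_left] at this
        rcases hm.isPrime.mem_or_mem h5 with h6 | h6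
        · exact hmS (hdS m hm hPm h6)
        · have h7 := m.sub_mem h6 h4
          rw [sub_sub_cancel] at h7
          exact hm.ne_top ((Ideal.eq_top_iff_one m).2 h7)
      · rw [if_neg hβ, sub_zero] at h4
        have := m.sub_mem h2 (m.mul_mem_left d h4)
        rw [add_sub_cancel_right] at this
        exact hβ this
    · rw [hαdef]
      linear_combination -h0

end STCI.LG
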