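import Pool.Agent.H24.LG.Defs

/-!
# Row Chain (project MP_204867_LG)

`nak_at`: if `d ∉ P` and `d P ≤ (g, w) + P^2`, then `d' P ≤ (g, w)` for some `d' ∉ P` (the determinant trick).

`chain_of`: `R` factorial domain, `P` prime and not principal, `g, w ∈ P`, `d ∉ P`, `d P ≤ (g, w) + P^2`; then `Chain P g w`.
Proof. By `nak_at` we may assume `d P ≤ (g, w)`. Suppose `s ∉ P` and `s w^i = c g + π'`, `π' ∈ P^(i+1)`. `d^(i+1) π' ∈ (g, w)^(i+1)`
(`span {d}^(i+1) * P^(i+1) = (span {d} * P)^(i+1)`) `≤ (g) + (w^(i+1))`. So `d^(i+1) s w^i = c' g + c'' w^(i+1)`, i.e.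
`w^i s' = c' g` with `s' = d^(i+1) s - c'' w ∉ P`.
If `g = 0`: `w^i s' = 0`, `s' ≠ 0`, so `w = 0` (and `i ≠ 0`), so `d P ≤ 0`, `P = 0 = (0)` principal, contradiction.
If `g ≠ 0`: `g ∈ P` has a prime factor `π ∈ P` (`g` is not a unit; product of primes in a prime ideal). `π ∣ w^i s'`, `π ∤ s'`
(else `s' ∈ P`), so `π ∣ w` (`i ≠ 0`). So `d P ≤ (g, w) ≤ (π)`, `π ∤ d` (else `d ∈ P`), so `P ≤ (π) ≤ P`, `P` principal, contradiction.
-/

set_option autoImplicit false

namespace STCI.LG

universe u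

theorem nak_at {R : Type u} [CommRing R] [IsNoetherianRing R] (P : Ideal R) [P.IsPrime]
    (g w d : R) (hg : g ∈ P) (hw : w ∈ P) (hd : d ∉ P)
    (hgen : ∀ p ∈ P, d * p ∈ Ideal.span {g, w} ⊔ P ^ 2) :
    ∃ d' : R, d' ∉ P ∧ ∀ p ∈ P, d' * p ∈ Ideal.span {g, w} := by
  classical
  set N : Submodule R R := Ideal.span {g, w} with hN
  let M : Submodule R (R ⧸ N) := Submodule.map N.mkQ P
  have hfin : Module.Finite R M := Module.Finite.iff_fg.2 ((IsNoetherian.noetherian P).map _)
  let f : Module.End R M := d • LinearMap.id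
  have hq : ∀ q : R, q ∈ P • (P : Submodule R R) → ∃ h : N.mkQ q ∈ M,
      (⟨N.mkQ q, h⟩ : M) ∈ P • (⊤ : Submodule R M) := by
    intro q hq
    refine Submodule.smul_induction_on hq ?_ ?_
    · intro r hr n hn
      have h1 : N.mkQ n ∈ M := Submodule.mem_map_of_mem hn
      have h2 : N.mkQ (r • n) = r • N.mkQ n := map_smul _ _ _
      have h3 : N.mkQ (r • n) ∈ M := by rw [h2]; exact M.smul_mem _ h1
      refine ⟨h3, ?_⟩
      have h4 : (⟨N.mkQ (r • n), h3⟩ : M) = r • (⟨N.mkQ n, h1⟩ : M) := Subtype.ext h2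
      rw [h4]
      exact Submodule.smul_mem_smul hr Submodule.mem_top
    · rintro x y ⟨hx, hx'⟩ ⟨hy, hy'⟩
      have h2 : N.mkQ (x + y) = N.mkQ x + N.mkQ y := map_add _ _ _
      have h3 : N.mkQ (x + y) ∈ M := by rw [h2]; exact M.add_mem hx hy
      refine ⟨h3, ?_⟩
      have h4 : (⟨N.mkQ (x + y), h3⟩ : M) = ⟨N.mkQ x, hx⟩ + ⟨N.mkQ y, hy⟩ := Subtype.ext h2
      rw [h4]
      exact Submodule.add_mem _ hx' hy'
  have hrange : LinearMap.range f ≤ P • (⊤ : Submodule R M) := by
    rintro _ ⟨⟨m, hm⟩, rfl⟩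
    obtain ⟨p, hp, rfl⟩ := hm
    obtain ⟨a, ha, q, hq', hsum⟩ := Submodule.mem_sup.1 (hgen p hp)
    obtain ⟨h, h'⟩ := hq q (by rw [smul_eq_mul, ← pow_two]; exact hq')
    have h1 : f ⟨N.mkQ p, ⟨p, hp, rfl⟩⟩ = ⟨N.mkQ q, h⟩ := by
      apply Subtype.ext
      have h2 : d • N.mkQ p = N.mkQ q := by
        rw [← map_smul, smul_eq_mul, ← hsum, map_add]
        have h3 : N.mkQ a = 0 := by rw [Submodule.mkQ_apply, Submodule.Quotient.mk_eq_zero]; exact ha
        rw [h3, zero_add]
      exact h2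
    rw [h1]
    exact h'
  obtain ⟨p, hmon, -, hcoef, hp0⟩ :=
    LinearMap.exists_monic_and_natDegree_eq_and_coeff_mem_pow_and_aeval_eq_zero R f P hrange
  have hev : ∀ r : Polynomial R, ∀ m : M, (Polynomial.aeval f r) m = (r.eval d) • m := by
    intro r m
    have h1 : f = algebraMap R (Module.End R M) d := by
      ext x
      simp [f]
    rw [h1, Polynomial.aeval_algebraMap_apply_eq_algebraMap_eval]
    rfl
  refine ⟨p.eval d, ?_, ?_⟩
  · intro hmem
    rw [Polynomial.eval_eq_sum_range, Finset.sum_range_succ] at hmem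
    have h1 : ∑ i ∈ Finset.range p.natDegree, p.coeff i * d ^ i ∈ P := by
      refine Ideal.sum_mem _ fun i hi => Ideal.mul_mem_right _ _ ?_
      have h2 : p.natDegree - i ≠ 0 := by
        have := Finset.mem_range.1 hi
        omega
      exact Ideal.pow_le_self h2 (hcoef i)
    have h3 : p.coeff p.natDegree * d ^ p.natDegree ∈ P := by
      have := P.sub_mem hmem h1
      rwa [add_sub_cancel_left] at this
    rw [hmon.coeff_natDegree, one_mul] at h3
    exact hd (Ideal.IsPrime.mem_of_pow_mem ‹_› _ h3)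
  · intro x hx
    have h1 := hev p ⟨N.mkQ x, ⟨x, hx, rfl⟩⟩
    rw [hp0] at h1
    have h2 : (p.eval d) • N.mkQ x = 0 := (congrArg Subtype.val h1).symm
    rw [← map_smul, smul_eq_mul, Submodule.mkQ_apply, Submodule.Quotient.mk_eq_zero] at h2
    exact h2

/-- powers of `(g, w)` are in `(g) + (w^n)` -/
theorem pow_pair_le {R : Type u} [CommRing R] (g w : R) (n : ℕ) :
    (Ideal.span {g, w} : Ideal R) ^ n ≤ Ideal.span {g} ⊔ Ideal.span {w ^ n} := by
  have h0 : (Ideal.span {g, w} : Ideal R) = Ideal.span {g} ⊔ Ideal.span {w} := by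
    rw [← Ideal.span_union]
    rfl
  induction n with
  | zero =>
    rw [pow_zero, pow_zero, Ideal.span_singleton_one]
    simp
  | succ n ih =>
    rw [pow_succ]
    refine (Ideal.mul_mono_left ih).trans ?_
    rw [h0, Ideal.sup_mul]
    refine sup_le (Ideal.mul_le_left.trans le_sup_left) ?_
    rw [Ideal.mul_sup]
    refine sup_le (Ideal.mul_le_right.trans le_sup_left) ?_
    rw [Ideal.span_singleton_mul_span_singleton, ← pow_succ]
    exact le_sup_right

theorem chain_of {R : Type u} [CommRing R] [IsDomain R] [IsNoetherianRing R]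
    [UniqueFactorizationMonoid R] (P : Ideal R) [P.IsPrime] (hnp : ∀ π : R, P ≠ Ideal.span {π})
    (g w d : R) (hg : g ∈ P) (hw : w ∈ P) (hd : d ∉ P)
    (hgen : ∀ p ∈ P, d * p ∈ Ideal.span {g, w} ⊔ P ^ 2) : Chain P g w := by
  obtain ⟨d, hd, hgen⟩ := nak_at P g w d hg hw hd hgen
  have hP : P.IsPrime := inferInstance
  intro i s hs hmem
  -- the relation
  obtain ⟨c, hc, q, hq, hsum⟩ := Submodule.mem_sup.1 hmem
  obtain ⟨c, rfl⟩ := Ideal.mem_span_singleton'.1 hc
  have h1 : d ^ (i + 1) * q ∈ (Ideal.span {g, w} : Ideal R) ^ (i + 1) := by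
    have h2 : (Ideal.span {d} * P : Ideal R) ≤ Ideal.span {g, w} := by
      rw [Ideal.span_singleton_mul_le_iff]
      exact hgen
    have h3 := Ideal.pow_right_mono h2 (i + 1)
    apply h3
    rw [mul_pow, Ideal.span_singleton_pow]
    exact Ideal.mul_mem_mul (Ideal.mem_span_singleton_self _) hq
  obtain ⟨x, hx, y, hy, hxy⟩ := Submodule.mem_sup.1 (pow_pair_le g w (i + 1) h1)
  obtain ⟨x, rfl⟩ := Ideal.mem_span_singleton'.1 hx
  obtain ⟨y, rfl⟩ := Ideal.mem_span_singleton'.1 hy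
  have key : w ^ i * (d ^ (i + 1) * s - y * w) = (d ^ (i + 1) * c + x) * g := by
    have e1 : d ^ (i + 1) * (s * w ^ i) = d ^ (i + 1) * (c * g + q) := by rw [hsum]
    have e2 : x * g + y * w ^ (i + 1) = d ^ (i + 1) * q := hxy
    have e3 : w ^ i * (d ^ (i + 1) * s - y * w) = d ^ (i + 1) * (s * w ^ i) - y * w ^ (i + 1) := by ring
    rw [e3, e1]
    linear_combination -e2
  have hs' : d ^ (i + 1) * s - y * w ∉ P := by
    intro h
    have h2 : d ^ (i + 1) * s ∈ P := by
      have := P.add_mem h (P.mul_mem_left y hw)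
      rwa [sub_add_cancel] at this
    rcases hP.mem_or_mem h2 with h3 | h3
    · exact hd (hP.mem_of_pow_mem _ h3)
    · exact hs h3
  set s' := d ^ (i + 1) * s - y * w with hs'def
  have hs'0 : s' ≠ 0 := fun h => hs' (h ▸ P.zero_mem)
  -- `i ≠ 0`
  have hi : i ≠ 0 := by
    rintro rfl
    apply hs'
    rw [pow_zero, one_mul] at key
    rw [key]
    exact P.mul_mem_left _ hg
  by_cases hg0 : g = 0
  · have hw0 : w = 0 := by
      rw [hg0, mul_zero] at key
      rcases mul_eq_zero.1 key with h | h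
      · exact eq_zero_of_pow_eq_zero h
      · exact absurd h hs'0
    apply hnp 0
    apply le_antisymm
    · intro x hx
      have h2 := hgen x hx
      rw [hg0, hw0] at h2
      have h3 : (Ideal.span {0, 0} : Ideal R) = Ideal.span {0} := by simp
      rw [h3, Ideal.mem_span_singleton, zero_dvd_iff] at h2
      rcases mul_eq_zero.1 h2 with h | h
      · exact absurd (h ▸ P.zero_mem) hd
      · rw [h]; exact Ideal.zero_mem _
    · rw [Ideal.span_singleton_le_iff_mem]
      exact P.zero_mem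
  · -- a prime factor of `g` in `P`
    obtain ⟨π, hπ, hπP, hπg⟩ : ∃ π : R, Prime π ∧ π ∈ P ∧ π ∣ g := by
      obtain ⟨f, hf, hfg⟩ := UniqueFactorizationMonoid.exists_prime_factors g hg0
      obtain ⟨u, hu⟩ := hfg
      have h2 : f.prod ∈ P := by
        have h3 : f.prod * (u : R) ∈ P := by rw [hu]; exact hg
        exact (hP.mem_or_mem h3).resolve_right
          (fun h => hP.ne_top (Ideal.eq_top_of_isUnit_mem _ h u.isUnit))
      obtain ⟨π, h3, h4⟩ := (hP.multiset_prod_mem_iff_exists_mem f).1 h2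
      exact ⟨π, hf π h3, h4, (Multiset.dvd_prod h3).trans ⟨u, hu.symm⟩⟩
    have h3 : π ∣ w ^ i * s' := by
      rw [key]
      exact hπg.mul_left _
    have hπw : π ∣ w := by
      rcases hπ.dvd_or_dvd h3 with h | h
      · exact hπ.dvd_of_dvd_pow h
      · exact absurd (P.mem_of_dvd h hπP) hs'
    apply hnp π
    apply le_antisymm
    · intro x hx
      have h4 : Ideal.span {g, w} ≤ Ideal.span {π} := by
        rw [Ideal.span_le]
        rintro z (rfl | rfl)
        · exact Ideal.mem_span_singleton.2 hπg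
        · exact Ideal.mem_span_singleton.2 hπw
      have h5 := Ideal.mem_span_singleton.1 (h4 (hgen x hx))
      rcases hπ.dvd_or_dvd h5 with h | h
      · exact absurd (P.mem_of_dvd h hπP) hd
      · exact Ideal.mem_span_singleton.2 h
    · rw [Ideal.span_singleton_le_iff_mem]
      exact hπP

end STCI.LG
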