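import Pool.Agent.H24.LG.Defs

/-!
# Row Copr: removing common factors (project MP_204867_LG)

Proof. Not both `a, b` are `0` (else `s0 x ∈ √0 = 0` for all `x ∈ P`, so `P = 0 = (0)`, as `s0 ≠ 0`, contradiction to `hnp 0`).
`UniqueFactorizationMonoid.exists_reduced_factors` (or `exists_reduced_factors'`): `a = c a'`, `b = c b'`, `IsRelPrime a' b'`.
Claim `c ∉ m`. Otherwise a prime factor `π` of `c` is in `m` (`c` is a product of primes, not a unit, `m` prime; `c ≠ 0`);
`(a, b) ≤ (π)`, so for `x ∈ P`: `s0 x ∈ (π)` (`(π)` is prime, so radical); `s0 ∉ (π)` as `(π) ≤ m`; so `P ≤ (π)`. As `P ≠ (π)`, `π ∉ P`, so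
every `p ∈ P` is `π p1` with `p1 ∈ P`; iterating, every `p ∈ P` is divisible by all powers of `π`, so `p = 0`
(`FiniteMultiplicity` of a nonunit in a `WfDvdMonoid`, or `WfDvdMonoid.max_power_factor`); so `P = 0 = (0)`, contradiction.
-/

set_option autoImplicit false

namespace STCI.LG

universe u

theorem exists_coprime {R : Type u} [CommRing R] [IsDomain R] [UniqueFactorizationMonoid R]
    (P m : Ideal R) [P.IsPrime] [m.IsMaximal] (hnp : ∀ π : R, P ≠ Ideal.span {π})
    (a b : R) (h : CutNear P m a b) :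
    ∃ c a' b' : R, c ∉ m ∧ a = c * a' ∧ b = c * b' ∧ IsRelPrime a' b' := by
  obtain ⟨haP, hbP, s0, hs0, hrad⟩ := h
  have hs0ne : s0 ≠ 0 := fun h => hs0 (h ▸ m.zero_mem)
  have hPne : P ≠ ⊥ := by
    intro h
    apply hnp 0
    rw [h, eq_comm, Ideal.span_singleton_eq_bot]
  have hab : a ≠ 0 ∨ b ≠ 0 := by
    by_contra hcon
    push Not at hcon
    obtain ⟨rfl, rfl⟩ := hcon
    apply hPne
    rw [eq_bot_iff]
    intro x hx
    obtain ⟨n, hn⟩ := hrad x hx
    have h1 : (Ideal.span {(0 : R), 0} : Ideal R) = ⊥ := by simp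
    rw [h1, Ideal.mem_bot] at hn
    have h2 := eq_zero_of_pow_eq_zero hn
    rcases mul_eq_zero.1 h2 with h3 | h3
    · exact absurd h3 hs0ne
    · exact h3
  obtain ⟨a', b', c, hrel, hca, hcb⟩ : ∃ a' b' c' : R, IsRelPrime a' b' ∧ c' * a' = a ∧ c' * b' = b := by
    rcases hab with h | h
    · exact UniqueFactorizationMonoid.exists_reduced_factors a h b
    · exact UniqueFactorizationMonoid.exists_reduced_factors' a b h
  refine ⟨c, a', b', ?_, hca.symm, hcb.symm, hrel⟩
  intro hcm
  have hc0 : c ≠ 0 := by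
    rintro rfl
    rw [zero_mul] at hca hcb
    rcases hab with h | h
    · exact h hca.symm
    · exact h hcb.symm
  obtain ⟨f, hf, hfa⟩ := UniqueFactorizationMonoid.exists_prime_factors c hc0
  have hfm : f.prod ∈ m := m.mem_of_dvd hfa.dvd' hcm
  have hmp : m.IsPrime := inferInstance
  obtain ⟨π, hπf, hπm⟩ := (hmp.multiset_prod_mem_iff_exists_mem f).1 hfm
  have hπ := hf π hπf
  have hπc : π ∣ c := (Multiset.dvd_prod hπf).trans hfa.dvd
  have hspan : (Ideal.span {a, b} : Ideal R) ≤ Ideal.span {π} := by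
    rw [Ideal.span_le]
    rintro y hy
    rcases hy with rfl | hy
    · exact Ideal.mem_span_singleton.2 (hca ▸ hπc.mul_right a')
    · rw [Set.mem_singleton_iff] at hy
      subst hy
      exact Ideal.mem_span_singleton.2 (hcb ▸ hπc.mul_right b')
  have hle : ∀ x ∈ P, π ∣ x := by
    intro x hx
    obtain ⟨n, hn⟩ := hrad x hx
    have h1 : π ∣ (s0 * x) ^ n := Ideal.mem_span_singleton.1 (hspan hn)
    have h2 := hπ.dvd_of_dvd_pow h1
    rcases hπ.dvd_or_dvd h2 with h3 | h3
    · exact absurd (m.mem_of_dvd h3 hπm) hs0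
    · exact h3
  have hπP : π ∉ P := by
    intro h
    apply hnp π
    apply le_antisymm
    · intro x hx
      exact Ideal.mem_span_singleton.2 (hle x hx)
    · rw [Ideal.span_singleton_le_iff_mem]
      exact h
  have hpow : ∀ (n : ℕ) (x : R), x ∈ P → π ^ n ∣ x := by
    intro n
    induction n with
    | zero => intro x _; rw [pow_zero]; exact one_dvd _
    | succ n ih =>
      intro x hx
      obtain ⟨y, rfl⟩ := hle x hx
      have hy : y ∈ P := (‹P.IsPrime›.mem_or_mem hx).resolve_left hπP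
      rw [pow_succ']
      exact mul_dvd_mul_left _ (ih y hy)
  apply hPne
  rw [eq_bot_iff]
  intro x hx
  by_contra hx0
  have hfin := FiniteMultiplicity.of_not_isUnit hπ.not_isUnit hx0
  obtain ⟨n, hn⟩ := hfin
  exact hn (hpow (n + 1) x hx)

end STCI.LG
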