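import Pool.Agent.H41.STCI.Add

/-!
# Local-to-global for curves in affine three-space: definitions

* `CutNear P m a b`: near the point `m` the closed set `V(P)` is the set of common zeros of `a` and `b`.
* `GenSmooth P a`: `a` is not in the second symbolic power of `P`.
* `cont P g L`: the contraction to `R` of the ideal generated by `g` and `P ^ L` in the local ring at `P`.
-/

set_option autoImplicit false

namespace STCI.LG

universe u

variable {R : Type u} [CommRing R]

/-- Near the point `m`, the closed set `V(P)` is the set of common zeros of `a` and `b`. -/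
def CutNear (P m : Ideal R) (a b : R) : Prop :=
  a ∈ P ∧ b ∈ P ∧ ∃ s : R, s ∉ m ∧ ∀ x ∈ P, s * x ∈ (Ideal.span {a, b} : Ideal R).radical

/-- `a` is not in the second symbolic power of `P`. -/
def GenSmooth (P : Ideal R) (a : R) : Prop :=
  ∀ t : R, t ∉ P → t * a ∉ P ^ 2

/-- every prime ideal which contains `P` strictly is maximal -/
def OneDim (P : Ideal R) : Prop :=
  ∀ q : Ideal R, q.IsPrime → P < q → q.IsMaximal

/-- the contraction to `R` of the ideal generated by `g` and `P ^ L` in the local ring at `P` -/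
def cont (P : Ideal R) [hP : P.IsPrime] (g : R) (L : ℕ) : Ideal R where
  carrier := {x | ∃ s : R, s ∉ P ∧ s * x ∈ Ideal.span {g} ⊔ P ^ L}
  zero_mem' := ⟨1, hP.one_notMem, by rw [mul_zero]; exact Ideal.zero_mem _⟩
  add_mem' := by
    rintro x y ⟨s, hs, hx⟩ ⟨t, ht, hy⟩
    refine ⟨s * t, fun h => (hP.mem_or_mem h).elim hs ht, ?_⟩
    have h1 : s * t * (x + y) = t * (s * x) + s * (t * y) := by ring
    rw [h1]
    exact Ideal.add_mem _ (Ideal.mul_mem_left _ _ hx) (Ideal.mul_mem_left _ _ hy)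
  smul_mem' := by
    rintro c x ⟨s, hs, hx⟩
    refine ⟨s, hs, ?_⟩
    have h1 : s * (c * x) = c * (s * x) := by ring
    rw [smul_eq_mul, h1]
    exact Ideal.mul_mem_left _ _ hx

variable {P : Ideal R} [hP : P.IsPrime] {g : R} {L : ℕ}

theorem mem_cont {x : R} :
    x ∈ cont P g L ↔ ∃ s : R, s ∉ P ∧ s * x ∈ Ideal.span {g} ⊔ P ^ L := Iff.rfl

theorem le_cont : Ideal.span {g} ⊔ P ^ L ≤ cont P g L := fun x hx =>
  ⟨1, hP.one_notMem, by rwa [one_mul]⟩

theorem self_mem_cont : g ∈ cont P g L :=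
  le_cont (Ideal.mem_sup_left (Ideal.mem_span_singleton_self g))

theorem pow_le_cont : P ^ L ≤ cont P g L := le_sup_right.trans le_cont

theorem mem_cont_of_mul {s x : R} (hs : s ∉ P) (h : s * x ∈ cont P g L) : x ∈ cont P g L := by
  obtain ⟨t, ht, h1⟩ := h
  exact ⟨t * s, fun h => (hP.mem_or_mem h).elim ht hs, by rwa [mul_assoc]⟩

theorem cont_le (hg : g ∈ P) (hL : 1 ≤ L) : cont P g L ≤ P := by
  rintro x ⟨s, hs, hx⟩
  have h1 : Ideal.span {g} ⊔ P ^ L ≤ P :=
    sup_le ((Ideal.span_singleton_le_iff_mem P).2 hg) (Ideal.pow_le_self (by omega))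
  exact (hP.mem_or_mem (h1 hx)).resolve_left hs

theorem cont_radical (hg : g ∈ P) (hL : 1 ≤ L) : (cont P g L).radical = P := by
  apply le_antisymm
  · exact hP.radical_le_iff.2 (cont_le hg hL)
  · intro x hx
    exact ⟨L, pow_le_cont (Ideal.pow_mem_pow hx L)⟩

/-- powers of `w` are as independent as possible modulo `g` -/
def Chain (P : Ideal R) (g w : R) : Prop :=
  ∀ (i : ℕ) (s : R), s ∉ P → s * w ^ i ∉ Ideal.span {g} ⊔ P ^ (i + 1)

theorem OneDim.of_dimensionLEOne {P : Ideal R} (h : Ring.DimensionLEOne (R ⧸ P)) : OneDim P := by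
  intro q hq hPq
  have h1 : (q.map (Ideal.Quotient.mk P)).IsPrime :=
    Ideal.map_isPrime_of_surjective Ideal.Quotient.mk_surjective (by rw [Ideal.mk_ker]; exact hPq.le)
  have h2 : q.map (Ideal.Quotient.mk P) ≠ ⊥ := by
    intro h0
    rw [Ideal.map_eq_bot_iff_le_ker, Ideal.mk_ker] at h0
    exact absurd h0 (not_le_of_gt hPq)
  have h3 := h.maximalOfPrime h2 h1
  have h4 : (q.map (Ideal.Quotient.mk P)).comap (Ideal.Quotient.mk P) = q := by
    rw [Ideal.comap_map_of_surjective _ Ideal.Quotient.mk_surjective, ← RingHom.ker_eq_comap_bot,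
      Ideal.mk_ker, sup_eq_left]
    exact hPq.le
  rw [← h4]
  exact Ideal.comap_isMaximal_of_surjective _ Ideal.Quotient.mk_surjective

end STCI.LG
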