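import Pool.Agent.H24.LG.Defs

/-!
# Row Exch: exchange lemma for regular sequences (project MP_204867_LG)

`u, v, w` is a regular sequence, `a, b` is a regular sequence, and `u x, v x, w x` are in `(a, b)`; then `x` is in `(a, b)`.

Proof. `u x = α1 a + β1 b`, `v x = α2 a + β2 b`, `w x = α3 a + β3 b`. From `v (u x) = u (v x)`:
`(v α1 - u α2) a + (v β1 - u β2) b = 0`, so `b (v β1 - u β2) ∈ (a)`, so `v β1 - u β2 = γ12 a`, and then
`a (v α1 - u α2 + γ12 b) = 0`, so `v α1 - u α2 = - γ12 b`. In the same way `w β1 - u β3 = γ13 a` and `w β2 - v β3 = γ23 a`.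
`w (v β1 - u β2) - v (w β1 - u β3) + u (w β2 - v β3) = 0` gives `(w γ12 - v γ13 + u γ23) a = 0`, so `w γ12 = v γ13 - u γ23 ∈ (u, v)`,
so `γ12 = λ u + μ v`. Then `v (β1 - μ a) = u (β2 + λ a)`, so `β1 - μ a = u β'`; `v (α1 + μ b) = u (α2 - λ b)`, so
`α1 + μ b = u α'`. Hence `u x = α1 a + β1 b = u (α' a + β' b)` and `x = α' a + β' b`.
-/

set_option autoImplicit false

namespace STCI.LG

universe u

theorem exch {R : Type u} [CommRing R] (u v w a b x : R)
    (hu : ∀ z, u * z = 0 → z = 0) (hv : ∀ z, v * z ∈ Ideal.span {u} → z ∈ Ideal.span {u})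
    (hw : ∀ z, w * z ∈ Ideal.span {u, v} → z ∈ Ideal.span {u, v})
    (ha : ∀ z, a * z = 0 → z = 0) (hb : ∀ z, b * z ∈ Ideal.span {a} → z ∈ Ideal.span {a})
    (h1 : u * x ∈ Ideal.span {a, b}) (h2 : v * x ∈ Ideal.span {a, b})
    (h3 : w * x ∈ Ideal.span {a, b}) : x ∈ Ideal.span {a, b} := by
  obtain ⟨α1, β1, e1⟩ := Ideal.mem_span_pair.1 h1
  obtain ⟨α2, β2, e2⟩ := Ideal.mem_span_pair.1 h2
  obtain ⟨α3, β3, e3⟩ := Ideal.mem_span_pair.1 h3
  -- γ12
  obtain ⟨g12, hg12⟩ := Ideal.mem_span_singleton'.1 (hb (v * β1 - u * β2)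
    (Ideal.mem_span_singleton'.2 ⟨u * α2 - v * α1, by linear_combination u * e2 - v * e1⟩))
  obtain ⟨g13, hg13⟩ := Ideal.mem_span_singleton'.1 (hb (w * β1 - u * β3)
    (Ideal.mem_span_singleton'.2 ⟨u * α3 - w * α1, by linear_combination u * e3 - w * e1⟩))
  obtain ⟨g23, hg23⟩ := Ideal.mem_span_singleton'.1 (hb (w * β2 - v * β3)
    (Ideal.mem_span_singleton'.2 ⟨v * α3 - w * α2, by linear_combination v * e3 - w * e2⟩))
  have k12 : v * α1 - u * α2 + g12 * b = 0 := by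
    apply ha
    linear_combination v * e1 - u * e2 + b * hg12
  have k : w * g12 - v * g13 + u * g23 = 0 := by
    apply ha
    linear_combination w * hg12 - v * hg13 + u * hg23
  obtain ⟨l, m, hlm⟩ := Ideal.mem_span_pair.1 (hw g12
    (Ideal.mem_span_pair.2 ⟨-g23, g13, by linear_combination -k⟩))
  obtain ⟨β', hβ⟩ := Ideal.mem_span_singleton'.1 (hv (β1 - m * a)
    (Ideal.mem_span_singleton'.2 ⟨β2 + l * a, by linear_combination hg12 + a * hlm⟩))
  obtain ⟨α', hα⟩ := Ideal.mem_span_singleton'.1 (hv (α1 + m * b)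
    (Ideal.mem_span_singleton'.2 ⟨α2 - l * b, by linear_combination -k12 - b * hlm⟩))
  have hx : x - (α' * a + β' * b) = 0 := by
    apply hu
    linear_combination -e1 - a * hα - b * hβ
  exact Ideal.mem_span_pair.2 ⟨α', β', by linear_combination -hx⟩

end STCI.LG
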