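import Pool.Agent.H24.LG.Defs

/-!
# Row Gen: generators at the generic point (project MP_204867_LG)

* `exists_two_gen`: `MvPolynomial (Fin 3) k` is a regular ring (`MvPolynomial.isRegularRing_of_isRegularRing`, instance; `k` is an
  `IsRegularRing` as a field / principal ideal domain / Dedekind domain), so `R_P = Localization.AtPrime P` is a regular local ring: its
  maximal ideal has `spanFinrank` equal to `ringKrullDim R_P = P.height`, and `P.height ≤ 2` since `P` is not maximal and
  `ringKrullDim R = 3` (`MvPolynomial.ringKrullDim_of_isNoetherianRing`; `P < m` for a maximal `m`,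
  `Ideal.height_add_one_le_of_lt_of_isPrime`, `Ideal.height_le_ringKrullDim_of_ne_top`). So the maximal ideal of `R_P` is generated by a
  set with at most two elements (`Submodule.FG.generators_ncard`, `Submodule.span_generators`), so by two elements `ξ, η`; clear
  denominators: `ξ = x / s`, `η = y / t` with `x, y ∈ P` (as `ξ, η` are in the maximal ideal). Each of the finitely many generators `p` of
  `P` has `d_p p ∈ (x, y)` for some `d_p ∉ P`; take the product.
* `exists_w`: `d a = α x + β y`. If `α ∉ P` take `w = y`, `d' = d α`: for `p ∈ P`, `d p = ξ x + η y` and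
  `d α p = ξ (α x) + α η y = ξ (d a - β y) + α η y`. If `α ∈ P` and `β ∉ P` take `w = x`, `d' = d β`. If both are in `P` then
  `d a ∈ P^2`, contradiction with `GenSmooth`.
-/

set_option autoImplicit false

namespace STCI.LG

open MvPolynomial

universe u

theorem Gen_two {A : Type u} [CommRing A] (I : Ideal A) (s : Set A) (hfin : s.Finite) (hc : s.ncard ≤ 2)
    (hs : Ideal.span s = I) : ∃ ξ η : A, ξ ∈ I ∧ η ∈ I ∧ I ≤ Ideal.span {ξ, η} := by
  have hsub : s ⊆ I := by
    rw [← hs]
    exact Ideal.subset_span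
  rcases Nat.lt_or_ge s.ncard 1 with h0 | h1
  · have h2 : s = ∅ := (Set.ncard_eq_zero hfin).1 (by omega)
    refine ⟨0, 0, I.zero_mem, I.zero_mem, ?_⟩
    rw [← hs, h2, Ideal.span_empty]
    exact bot_le
  · rcases Nat.lt_or_ge s.ncard 2 with h2 | h2
    · obtain ⟨a, ha⟩ := Set.ncard_eq_one.1 (by omega : s.ncard = 1)
      have haI : a ∈ I := hsub (by rw [ha]; exact Set.mem_singleton a)
      refine ⟨a, a, haI, haI, ?_⟩
      rw [← hs, ha]
      exact Ideal.span_mono (by simp)
    · obtain ⟨a, b, _, hab⟩ := Set.ncard_eq_two.1 (by omega : s.ncard = 2)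
      refine ⟨a, b, hsub (by rw [hab]; simp), hsub (by rw [hab]; simp), ?_⟩
      rw [← hs, hab]

theorem Gen_rank (k : Type u) [Field k] (P : Ideal (MvPolynomial (Fin 3) k)) [P.IsPrime]
    (hP : ¬ P.IsMaximal) :
    (IsLocalRing.maximalIdeal (Localization.AtPrime P)).spanFinrank ≤ 2 := by
  have hreg : IsRegularRing (MvPolynomial (Fin 3) k) := inferInstance
  have h1 := (hreg.isRegularLocalRing_localization P).spanFinrank_maximalIdeal
  rw [IsLocalization.AtPrime.ringKrullDim_eq_height P] at h1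
  obtain ⟨m, hm, hPm⟩ := Ideal.exists_le_maximal P (Ideal.IsPrime.ne_top ‹_›)
  have hlt : P < m := lt_of_le_of_ne hPm (fun h => hP (h ▸ hm))
  have hmp : m.IsPrime := hm.isPrime
  have h2 := Ideal.height_add_one_le_of_lt_of_isPrime hlt
  have h3 := Ideal.height_le_ringKrullDim_of_ne_top hm.ne_top
  rw [MvPolynomial.ringKrullDim_of_isNoetherianRing, ringKrullDim_eq_zero_of_field, Nat.card_eq_fintype_card,
    Fintype.card_fin, zero_add] at h3
  have h4 : m.height ≤ (3 : ℕ) := WithBot.coe_le_coe.1 (h3.trans (le_of_eq (by rfl)))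
  have h5 : ((IsLocalRing.maximalIdeal (Localization.AtPrime P)).spanFinrank : ℕ∞) = P.height := by
    exact_mod_cast h1
  rw [← h5] at h2
  have h6 := h2.trans h4
  have h7 : (IsLocalRing.maximalIdeal (Localization.AtPrime P)).spanFinrank + 1 ≤ 3 := by exact_mod_cast h6
  omega

theorem Gen_clear {R : Type u} [CommRing R] (P : Ideal R) [P.IsPrime] (ξ : Localization.AtPrime P)
    (h : ξ ∈ IsLocalRing.maximalIdeal (Localization.AtPrime P)) :
    ∃ x ∈ P, ξ ∈ Ideal.span {algebraMap R (Localization.AtPrime P) x} := by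
  obtain ⟨⟨x, s⟩, hx⟩ := IsLocalization.surj P.primeCompl ξ
  simp only at hx
  refine ⟨x, ?_, ?_⟩
  · rw [← IsLocalization.AtPrime.to_map_mem_maximal_iff (Localization.AtPrime P) P x, ← hx]
    exact Ideal.mul_mem_right _ _ h
  · rw [Ideal.mem_span_singleton, ← hx]
    exact ⟨(IsLocalization.map_units (Localization.AtPrime P) s).unit⁻¹.val, by
      rw [mul_assoc, IsUnit.mul_val_inv, mul_one]⟩

theorem Gen_prod {R : Type u} [CommRing R] (P J : Ideal R) [hPp : P.IsPrime] (hfg : P.FG)
    (h : ∀ p ∈ P, ∃ d, d ∉ P ∧ d * p ∈ J) : ∃ d, d ∉ P ∧ ∀ p ∈ P, d * p ∈ J := by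
  classical
  obtain ⟨t, ht⟩ := hfg
  have htP : ∀ p ∈ t, p ∈ P := by
    intro p hp
    rw [← ht]
    exact Submodule.subset_span hp
  choose! d hd1 hd2 using h
  refine ⟨∏ p ∈ t, d p, ?_, ?_⟩
  · intro hmem
    obtain ⟨p, hp, hpd⟩ := (Ideal.IsPrime.prod_mem_iff (p := P)).1 hmem
    exact hd1 p (htP p hp) hpd
  · intro q hq
    rw [← ht] at hq
    refine Submodule.span_induction (p := fun q _ => (∏ p ∈ t, d p) * q ∈ J) ?_ ?_ ?_ ?_ hq
    · intro p hp
      rw [← Finset.prod_erase_mul t d hp, mul_assoc]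
      exact J.mul_mem_left _ (hd2 p (htP p hp))
    · rw [mul_zero]
      exact J.zero_mem
    · intro a b _ _ ha hb
      rw [mul_add]
      exact J.add_mem ha hb
    · intro c a _ ha
      have e : (∏ p ∈ t, d p) * (c • a) = c * ((∏ p ∈ t, d p) * a) := by
        rw [smul_eq_mul]
        ring
      rw [e]
      exact J.mul_mem_left _ ha

theorem exists_two_gen (k : Type u) [Field k] (P : Ideal (MvPolynomial (Fin 3) k)) [P.IsPrime]
    (hP : ¬ P.IsMaximal) :
    ∃ x y d : MvPolynomial (Fin 3) k, x ∈ P ∧ y ∈ P ∧ d ∉ P ∧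
      ∀ p ∈ P, d * p ∈ Ideal.span {x, y} := by
  obtain ⟨ξ, η, hξ, hη, hle⟩ := Gen_two (IsLocalRing.maximalIdeal (Localization.AtPrime P))
    (Submodule.generators (IsLocalRing.maximalIdeal (Localization.AtPrime P)))
    (Submodule.FG.finite_generators (Ideal.fg_of_isNoetherianRing _))
    (by
      rw [Submodule.FG.generators_ncard (Ideal.fg_of_isNoetherianRing _)]
      exact Gen_rank k P hP)
    (Submodule.span_generators _)
  obtain ⟨x, hx, hξx⟩ := Gen_clear P ξ hξ
  obtain ⟨y, hy, hηy⟩ := Gen_clear P η hη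
  have hJ : IsLocalRing.maximalIdeal (Localization.AtPrime P) ≤
      (Ideal.span {x, y}).map (algebraMap (MvPolynomial (Fin 3) k) (Localization.AtPrime P)) := by
    refine hle.trans (Ideal.span_le.2 ?_)
    rintro z (rfl | rfl)
    · refine Ideal.span_le.2 ?_ hξx
      rw [Set.singleton_subset_iff]
      exact Ideal.mem_map_of_mem _ (Ideal.subset_span (by simp))
    · refine Ideal.span_le.2 ?_ hηy
      rw [Set.singleton_subset_iff]
      exact Ideal.mem_map_of_mem _ (Ideal.subset_span (by simp))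
  obtain ⟨d, hd, hd2⟩ := Gen_prod P (Ideal.span {x, y}) (Ideal.fg_of_isNoetherianRing P) (by
    intro p hp
    have h1 : algebraMap (MvPolynomial (Fin 3) k) (Localization.AtPrime P) p ∈
        (Ideal.span {x, y}).map (algebraMap (MvPolynomial (Fin 3) k) (Localization.AtPrime P)) :=
      hJ ((IsLocalization.AtPrime.to_map_mem_maximal_iff (Localization.AtPrime P) P p).2 hp)
    rw [IsLocalization.algebraMap_mem_map_algebraMap_iff P.primeCompl] at h1
    obtain ⟨m, hm, hmp⟩ := h1
    exact ⟨m, hm, hmp⟩)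
  exact ⟨x, y, d, hx, hy, hd, hd2⟩

theorem exists_w {R : Type u} [CommRing R] (P : Ideal R) [P.IsPrime] (x y d a : R) (hx : x ∈ P)
    (hy : y ∈ P) (hd : d ∉ P) (hgen : ∀ p ∈ P, d * p ∈ Ideal.span {x, y}) (ha : a ∈ P)
    (hs : GenSmooth P a) :
    ∃ w d' : R, w ∈ P ∧ d' ∉ P ∧ ∀ p ∈ P, d' * p ∈ Ideal.span {a, w} := by
  have hPp : P.IsPrime := ‹_›
  obtain ⟨α, β, hαβ⟩ := Ideal.mem_span_pair.1 (hgen a ha)
  by_cases hα : α ∈ P
  · by_cases hβ : β ∈ P
    · exfalso
      refine hs d hd ?_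
      rw [← hαβ, pow_two]
      exact Ideal.add_mem _ (Ideal.mul_mem_mul hα hx) (Ideal.mul_mem_mul hβ hy)
    · refine ⟨x, d * β, hx, fun h => (hPp.mem_or_mem h).elim hd hβ, ?_⟩
      intro p hp
      obtain ⟨e, f, hef⟩ := Ideal.mem_span_pair.1 (hgen p hp)
      rw [Ideal.mem_span_pair]
      refine ⟨f * d, e * β - f * α, ?_⟩
      linear_combination (-f) * hαβ + β * hef
  · refine ⟨y, d * α, hy, fun h => (hPp.mem_or_mem h).elim hd hα, ?_⟩
    intro p hp
    obtain ⟨e, f, hef⟩ := Ideal.mem_span_pair.1 (hgen p hp)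
    rw [Ideal.mem_span_pair]
    refine ⟨e * d, f * α - e * β, ?_⟩
    linear_combination (-e) * hαβ + α * hef

end STCI.LG
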