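import Pool.Agent.H24.LG.Defs

/-!
# Row Len: a `P`-primary ideal `(a, b)` with `a` generically smooth is `cont P a L` (project MP_204867_LG)

`exists_len`. Proof. Let `L` be the least natural number such that `s P^L ≤ (a, b)` for some `s ∉ P` (`Nat.find`; `M` is one by `hM`
with `s = 1`). `L ≥ 1` as `(a, b) ≤ P` and `s ∉ P`.
Claim: there is `s ∉ P` with `s b ∈ (a) + P^L`. Let `j ≤ L` be the largest with: there is `s ∉ P`, `s b ∈ (a) + P^j`
(`j = 0` works with `s = 1`). Suppose `j < L`. `s b = u a + π`, `π ∈ P^j`. As `d P ≤ (a, w)`: `d^j P^j ≤ (a, w)^j ≤ (a) + (w^j)`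
(`span {d}^j * P^j = (span {d} * P)^j`), so `d^j π = c a + ρ w^j`. If `ρ ∈ P`, then `d^j s b ∈ (a) + P^(j+1)`, contradiction to the
choice of `j`. So `ρ ∉ P` and `ρ w^j = d^j s b - (..) a ∈ (a, b)`; so `ρ d^j P^j ≤ ρ ((a) + (w^j)) ≤ (a, b)` with `ρ d^j ∉ P`,
contradiction to the choice of `L`.
Then `cont P a L = (a, b)`: `≥`: `a` (`self_mem_cont`), `b` (the claim). `≤`: `s x ∈ (a) + P^L` gives `s' s x ∈ (a, b)` with
`s' s ∉ P`, so `x ∈ (a, b)` by `hprim`.

`cont_pow`: if `cont P a L = (a, b)` and `b` is regular modulo `a`, then `cont P a (L j) = (a, b^j)`, `j ≥ 1`.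
Proof. (i) `(a, b^j)` is `P`-primary: if `s ∉ P`, `s x ∈ (a, b^j)` then `x ∈ (a, b^j)`. Induction on `j ≥ 1` (for all `x`); `j = 1`:
`s x ∈ cont P a L` so `x ∈ cont P a L = (a, b)` (`mem_cont_of_mul`). `j + 1`: first `x ∈ (a, b)`, `x = α a + β b`;
`s β b = s x - s α a ∈ (a, b^(j+1))`, `b (s β - γ b^j) ∈ (a)`, so `s β - γ b^j ∈ (a)`, `s β ∈ (a, b^j)`, `β ∈ (a, b^j)` by induction, and
`x ∈ (a, b^(j+1))`.
(ii) `≥`: `s b ∈ (a) + P^L` gives `s^j b^j ∈ (a) + P^(L j)`. (iii) `≤`: `P^L ≤ cont P a L = (a, b)`, so `P^(L j) ≤ (a, b)^j ≤ (a, b^j)`;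
if `s x ∈ (a) + P^(L j)` then `s x ∈ (a, b^j)` and `x ∈ (a, b^j)` by (i).
-/

set_option autoImplicit false

namespace STCI.LG

universe u

theorem len_pair {R : Type u} [CommRing R] {x y z : R} :
    z ∈ Ideal.span {x} ⊔ Ideal.span {y} ↔ ∃ α β : R, z = α * x + β * y := by
  rw [Submodule.mem_sup]
  constructor
  · rintro ⟨p, hp, q, hq, rfl⟩
    obtain ⟨α, rfl⟩ := Ideal.mem_span_singleton'.1 hp
    obtain ⟨β, rfl⟩ := Ideal.mem_span_singleton'.1 hq
    exact ⟨α, β, rfl⟩
  · rintro ⟨α, β, rfl⟩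
    exact ⟨_, Ideal.mul_mem_left _ α (Ideal.mem_span_singleton_self x), _,
      Ideal.mul_mem_left _ β (Ideal.mem_span_singleton_self y), rfl⟩

theorem len_span {R : Type u} [CommRing R] (x y : R) :
    (Ideal.span {x, y} : Ideal R) = Ideal.span {x} ⊔ Ideal.span {y} := by
  rw [← Ideal.span_union]
  rfl

theorem len_powers {R : Type u} [CommRing R] (P : Ideal R) (a w d : R)
    (hgen : ∀ p ∈ P, d * p ∈ Ideal.span {a, w}) : ∀ (j : ℕ), ∀ x ∈ P ^ j,
      d ^ j * x ∈ Ideal.span {a} ⊔ Ideal.span {w ^ j} := by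
  intro j
  induction j with
  | zero =>
    intro x _
    refine Ideal.mem_sup_right ?_
    rw [pow_zero, pow_zero, Ideal.span_singleton_one]
    exact Submodule.mem_top
  | succ j ih =>
    intro x hx
    rw [pow_succ] at hx
    refine Submodule.mul_induction_on hx ?_ ?_
    · intro y hy p hp
      obtain ⟨α, β, h1⟩ := len_pair.1 (ih y hy)
      have h2 := hgen p hp
      rw [len_span] at h2
      obtain ⟨γ, δ, h2⟩ := len_pair.1 h2
      refine len_pair.2 ⟨α * (d * p) + β * w ^ j * γ, β * δ, ?_⟩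
      have h3 : d ^ (j + 1) * (y * p) = (d ^ j * y) * (d * p) := by ring
      rw [h3, h1]
      have h4 : (α * a + β * w ^ j) * (d * p) = α * (d * p) * a + β * w ^ j * (d * p) := by ring
      rw [h4]
      nth_rewrite 2 [h2]
      ring
    · intro y z hy hz
      rw [mul_add]
      exact Ideal.add_mem _ hy hz

theorem exists_len {R : Type u} [CommRing R] (P : Ideal R) [P.IsPrime] (a b w d : R)
    (ha : a ∈ P) (hb : b ∈ P) (hw : w ∈ P) (hd : d ∉ P)
    (hgen : ∀ p ∈ P, d * p ∈ Ideal.span {a, w}) (M : ℕ) (hM : P ^ M ≤ Ideal.span {a, b})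
    (hprim : ∀ s x : R, s ∉ P → s * x ∈ Ideal.span {a, b} → x ∈ Ideal.span {a, b}) :
    ∃ L : ℕ, 1 ≤ L ∧ cont P a L = Ideal.span {a, b} := by
  classical
  have hP : P.IsPrime := inferInstance
  have hle : (Ideal.span {a, b} : Ideal R) ≤ P := by
    rw [Ideal.span_le]
    rintro x (rfl | hx)
    · exact ha
    · rw [Set.mem_singleton_iff] at hx
      rw [hx]
      exact hb
  have hex : ∃ L : ℕ, ∃ s : R, s ∉ P ∧ ∀ x ∈ P ^ L, s * x ∈ (Ideal.span {a, b} : Ideal R) :=
    ⟨M, 1, hP.one_notMem, fun x hx => by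
      rw [one_mul]
      exact hM hx⟩
  have hmul : ∀ s t : R, s ∉ P → t ∉ P → s * t ∉ P := fun s t hs ht h =>
    (hP.mem_or_mem h).elim hs ht
  have hpow : ∀ (s : R) (j : ℕ), s ∉ P → s ^ j ∉ P := fun s j hs h => hs (hP.mem_of_pow_mem j h)
  set L := Nat.find hex with hL
  obtain ⟨t, ht, htL⟩ := Nat.find_spec hex
  rw [← hL] at htL
  have hL1 : 1 ≤ L := by
    by_contra h0
    have h1 : L = 0 := by omega
    have h2 := htL 1 (by
      rw [h1, pow_zero, Ideal.one_eq_top]
      exact Submodule.mem_top)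
    rw [mul_one] at h2
    exact ht (hle h2)
  have hclaim : ∀ j ≤ L, ∃ s : R, s ∉ P ∧ s * b ∈ Ideal.span {a} ⊔ P ^ j := by
    intro j
    induction j with
    | zero =>
      intro _
      refine ⟨1, hP.one_notMem, Ideal.mem_sup_right ?_⟩
      rw [pow_zero, Ideal.one_eq_top]
      exact Submodule.mem_top
    | succ j ih =>
      intro hj
      obtain ⟨s, hs, hsb⟩ := ih (by omega)
      obtain ⟨p, hp, π, hπ, hpπ⟩ := Submodule.mem_sup.1 hsb
      obtain ⟨v, rfl⟩ := Ideal.mem_span_singleton'.1 hp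
      obtain ⟨c, ρ, h1⟩ := len_pair.1 (len_powers P a w d hgen j π hπ)
      have h2 : d ^ j * s * b = (d ^ j * v + c) * a + ρ * w ^ j := by
        have : d ^ j * s * b = d ^ j * (s * b) := by ring
        rw [this, ← hpπ, mul_add, h1]
        ring
      by_cases hρ : ρ ∈ P
      · refine ⟨d ^ j * s, hmul _ _ (hpow d j hd) hs, ?_⟩
        rw [h2]
        refine Submodule.add_mem_sup
          (Ideal.mul_mem_left _ _ (Ideal.mem_span_singleton_self a)) ?_
        rw [pow_succ']
        exact Ideal.mul_mem_mul hρ (Ideal.pow_mem_pow hw j)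
      · exfalso
        have h3 : ρ * w ^ j ∈ (Ideal.span {a, b} : Ideal R) := by
          rw [len_span]
          refine len_pair.2 ⟨-(d ^ j * v + c), d ^ j * s, ?_⟩
          rw [h2]
          ring
        refine Nat.find_min hex (show j < L by omega)
          ⟨ρ * d ^ j, hmul _ _ hρ (hpow d j hd), fun x hx => ?_⟩
        obtain ⟨c', e, h4⟩ := len_pair.1 (len_powers P a w d hgen j x hx)
        have h5 : ρ * d ^ j * x = ρ * c' * a + e * (ρ * w ^ j) := by
          have : ρ * d ^ j * x = ρ * (d ^ j * x) := by ring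
          rw [this, h4]
          ring
        rw [h5]
        exact Ideal.add_mem _ (Ideal.mul_mem_left _ _ (Ideal.subset_span (by simp)))
          (Ideal.mul_mem_left _ _ h3)
  refine ⟨L, hL1, le_antisymm ?_ ?_⟩
  · rintro x ⟨s, hs, hx⟩
    refine hprim (t * s) x (hmul _ _ ht hs) ?_
    obtain ⟨p, hp, π, hπ, hpπ⟩ := Submodule.mem_sup.1 hx
    obtain ⟨v, rfl⟩ := Ideal.mem_span_singleton'.1 hp
    have h1 : t * s * x = t * v * a + t * π := by
      rw [mul_assoc, ← hpπ]
      ring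
    rw [h1]
    exact Ideal.add_mem _ (Ideal.mul_mem_left _ _ (Ideal.subset_span (by simp))) (htL π hπ)
  · rw [Ideal.span_le]
    rintro x (rfl | hx)
    · exact self_mem_cont
    · rw [Set.mem_singleton_iff] at hx
      rw [hx]
      exact hclaim L le_rfl

theorem cont_pow {R : Type u} [CommRing R] (P : Ideal R) [P.IsPrime] (a b : R) (L j : ℕ)
    (hj : 1 ≤ j) (h : cont P a L = Ideal.span {a, b})
    (hreg : ∀ z, b * z ∈ Ideal.span {a} → z ∈ Ideal.span {a}) :
    cont P a (L * j) = Ideal.span {a, b ^ j} := by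
  have hP : P.IsPrime := inferInstance
  have hprim : ∀ j, 1 ≤ j → ∀ s x : R, s ∉ P → s * x ∈ (Ideal.span {a, b ^ j} : Ideal R) →
      x ∈ (Ideal.span {a, b ^ j} : Ideal R) := by
    intro j hj
    induction j, hj using Nat.le_induction with
    | base =>
      intro s x hs hx
      rw [pow_one, ← h] at hx ⊢
      exact mem_cont_of_mul hs hx
    | succ j hj ih =>
      intro s x hs hx
      rw [len_span] at hx
      obtain ⟨u₀, v, hx⟩ := len_pair.1 hx
      have hx1 : x ∈ (Ideal.span {a, b} : Ideal R) := by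
        rw [← h]
        refine mem_cont_of_mul hs ?_
        rw [h, len_span]
        refine len_pair.2 ⟨u₀, v * b ^ j, ?_⟩
        rw [hx]
        ring
      rw [len_span] at hx1
      obtain ⟨α, β, rfl⟩ := len_pair.1 hx1
      have h1 : b * (s * β - v * b ^ j) ∈ Ideal.span {a} := by
        refine Ideal.mem_span_singleton'.2 ⟨u₀ - s * α, ?_⟩
        linear_combination -hx
      obtain ⟨γ, hγ⟩ := Ideal.mem_span_singleton'.1 (hreg _ h1)
      have h2 : s * β ∈ (Ideal.span {a, b ^ j} : Ideal R) := by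
        rw [len_span]
        exact len_pair.2 ⟨γ, v, by linear_combination -hγ⟩
      have h3 := ih s β hs h2
      rw [len_span] at h3 ⊢
      obtain ⟨p, q, hβ⟩ := len_pair.1 h3
      refine len_pair.2 ⟨α + p * b, q, ?_⟩
      rw [hβ]
      ring
  refine le_antisymm ?_ ?_
  · rintro x ⟨s, hs, hx⟩
    refine hprim j hj s x hs ?_
    obtain ⟨p, hp, π, hπ, hpπ⟩ := Submodule.mem_sup.1 hx
    rw [← hpπ, len_span]
    refine Ideal.add_mem _ (Ideal.mem_sup_left hp) ?_
    have h1 : P ^ (L * j) ≤ (Ideal.span {a, b} : Ideal R) ^ j := by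
      rw [pow_mul, ← h]
      exact Ideal.pow_right_mono pow_le_cont j
    have h2 := len_powers (Ideal.span {a, b}) a b 1 (fun p hp => by rwa [one_mul]) j π (h1 hπ)
    rwa [one_pow, one_mul] at h2
  · rw [Ideal.span_le]
    rintro x (rfl | hx)
    · exact self_mem_cont
    · rw [Set.mem_singleton_iff] at hx
      rw [hx]
      have hb : b ∈ cont P a L := by
        rw [h]
        exact Ideal.subset_span (by simp)
      obtain ⟨s, hs, hsb⟩ := hb
      refine ⟨s ^ j, fun h' => hs (hP.mem_of_pow_mem j h'), ?_⟩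
      obtain ⟨p, hp, π, hπ, hpπ⟩ := Submodule.mem_sup.1 hsb
      obtain ⟨v, rfl⟩ := Ideal.mem_span_singleton'.1 hp
      rw [← mul_pow, ← hpπ]
      have h1 : v * a ∣ (v * a + π) ^ j - π ^ j := by
        have := sub_dvd_pow_sub_pow (v * a + π) π j
        rwa [add_sub_cancel_right] at this
      obtain ⟨c, hc⟩ := h1
      have h2 : (v * a + π) ^ j = v * a * c + π ^ j := by linear_combination hc
      rw [h2]
      refine Submodule.add_mem_sup (Ideal.mem_span_singleton'.2 ⟨v * c, by ring⟩) ?_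
      rw [pow_mul]
      exact Ideal.pow_mem_pow hπ j

end STCI.LG
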