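import Pool.Agent.H24.LG.Defs

/-!
# Row Trans: passage to the local ring at `m` (project MP_204867_LG)

`A = Localization.AtPrime m`, `φ = algebraMap R A`, `P ≤ m`, `PA = P.map φ` (prime: `IsLocalization.isPrime_of_isPrime_disjoint`).
* `mem_of_map`: `φ x ∈ PA ↔ x ∈ P` (`IsLocalization.comap_map_of_isPrime_disjoint` or by hand).
* `oneDim_map`: a prime `q > PA` of `A`: `q.comap φ > P` is prime, so maximal, contained in `m` so equal to `m`, so `q = m A` is the maximal
  ideal of `A`.
* `cont_map`: `cont PA (φ g) L = (cont P g L).map φ`. `≥`: `s x ∈ (g) + P^L`, `s ∉ P` gives the same in `A` (`mem_of_map`). `≤`: let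
  `ξ = φ x / φ t`, `σ ξ ∈ (φ g) + PA^L`, `σ ∉ PA`, `σ = φ s / φ t'`: so `φ (s x) ∈ ((g) + P^L).map φ` and there is `r ∉ m` with
  `r s x ∈ (g) + P^L` (`IsLocalization.mem_map_algebraMap_iff`, `IsLocalization.eq_iff_exists`), `r s ∉ P`; so `x ∈ cont P g L` and
  `ξ = φ x * (unit)`.
* `exists_of_map`: if `(cont P g L).map φ = (φ g, f)` with `f ∈ A` then there are `f' ∈ cont P g L`, `s ∉ m`, with
  `s x ∈ (g, f')` for all `x ∈ cont P g L`: write `f = φ f' / φ t` with `f' ∈ cont P g L` (`f` is in the extended ideal: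
  `IsLocalization.mem_map_algebraMap_iff`), so `(φ g, f) = (φ g, φ f')` is the extension of `(g, f')`; for each of the finitely many
  generators `x` of `cont P g L` there is `s_x ∉ m` with `s_x x ∈ (g, f')`; take the product.
-/

set_option autoImplicit false

namespace STCI.LG

universe u

variable {R : Type u} [CommRing R]

theorem disj_of_le (P m : Ideal R) [m.IsPrime] (hPm : P ≤ m) :
    Disjoint (m.primeCompl : Set R) (P : Set R) :=
  Set.disjoint_left.2 fun _ h1 h2 => h1 (hPm h2)

theorem isPrime_map (P m : Ideal R) [P.IsPrime] [m.IsPrime] (hPm : P ≤ m) :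
    (P.map (algebraMap R (Localization.AtPrime m))).IsPrime :=
  IsLocalization.isPrime_of_isPrime_disjoint m.primeCompl (Localization.AtPrime m) P inferInstance
    (disj_of_le P m hPm)

theorem map_mem_iff (I m : Ideal R) [m.IsPrime] (x : R) :
    algebraMap R (Localization.AtPrime m) x ∈ I.map (algebraMap R (Localization.AtPrime m)) ↔
      ∃ s : R, s ∉ m ∧ s * x ∈ I :=
  IsLocalization.algebraMap_mem_map_algebraMap_iff m.primeCompl (Localization.AtPrime m) I x

theorem mem_of_map (P m : Ideal R) [P.IsPrime] [m.IsPrime] (hPm : P ≤ m) (x : R) :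
    algebraMap R (Localization.AtPrime m) x ∈ P.map (algebraMap R (Localization.AtPrime m)) ↔
      x ∈ P := by
  constructor
  · intro h
    obtain ⟨s, hs, h1⟩ := (map_mem_iff P m x).1 h
    exact (Ideal.IsPrime.mem_or_mem inferInstance h1).resolve_left fun h2 => hs (hPm h2)
  · exact fun h => Ideal.mem_map_of_mem _ h

theorem oneDim_map (P m : Ideal R) [P.IsPrime] [m.IsMaximal] (hPm : P ≤ m) (hdim : OneDim P) :
    OneDim (P.map (algebraMap R (Localization.AtPrime m))) := by
  intro q hq hPq
  have h1 := (IsLocalization.isPrime_iff_isPrime_disjoint m.primeCompl (Localization.AtPrime m) q).1 hq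
  have h2 : (q.under R).map (algebraMap R (Localization.AtPrime m)) = q :=
    IsLocalization.map_under m.primeCompl (Localization.AtPrime m) q
  have h3 : P < q.under R := by
    refine lt_of_le_not_ge ?_ ?_
    · intro x hx
      exact hPq.le (Ideal.mem_map_of_mem _ hx)
    · intro h
      have h4 := Ideal.map_mono (f := algebraMap R (Localization.AtPrime m)) h
      rw [h2] at h4
      exact absurd hPq (not_lt_of_ge h4)
  have h4 := hdim _ h1.1 h3
  have h5 : q.under R ≤ m := by
    intro x hx
    by_contra hxm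
    exact Set.disjoint_left.1 h1.2 hxm hx
  have h6 : q.under R = m := h4.eq_of_le (Ideal.IsPrime.ne_top inferInstance) h5
  rw [h6, Localization.AtPrime.map_eq_maximalIdeal] at h2
  rw [← h2]
  infer_instance

theorem map_gen (P m : Ideal R) [m.IsPrime] (g : R) (L : ℕ) :
    (Ideal.span {g} ⊔ P ^ L).map (algebraMap R (Localization.AtPrime m)) =
      Ideal.span {algebraMap R (Localization.AtPrime m) g} ⊔
        P.map (algebraMap R (Localization.AtPrime m)) ^ L := by
  rw [Ideal.map_sup, Ideal.map_span, Set.image_singleton, Ideal.map_pow]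

theorem cont_map (P m : Ideal R) [P.IsPrime] [m.IsPrime] (hPm : P ≤ m)
    [hPA : (P.map (algebraMap R (Localization.AtPrime m))).IsPrime] (g : R) (L : ℕ) :
    cont (P.map (algebraMap R (Localization.AtPrime m))) (algebraMap R _ g) L =
      (cont P g L).map (algebraMap R (Localization.AtPrime m)) := by
  apply le_antisymm
  · intro ξ hξ
    obtain ⟨σ, hσ, h1⟩ := mem_cont.1 hξ
    rw [← map_gen P m g L] at h1
    obtain ⟨x, t, rfl⟩ := IsLocalization.exists_mk'_eq m.primeCompl ξ
    obtain ⟨s, t', rfl⟩ := IsLocalization.exists_mk'_eq m.primeCompl σ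
    rw [← IsLocalization.mk'_mul, IsLocalization.mk'_mem_map_algebraMap_iff] at h1
    obtain ⟨r, hr, h2⟩ := h1
    have hs : s ∉ P := by
      intro hs
      apply hσ
      rw [IsLocalization.mk'_mem_map_algebraMap_iff]
      exact ⟨1, m.primeCompl.one_mem, by rwa [one_mul]⟩
    have hr' : r ∉ P := fun h => hr (hPm h)
    have hx : x ∈ cont P g L :=
      mem_cont.2 ⟨r * s, fun h => (Ideal.IsPrime.mem_or_mem inferInstance h).elim hr' hs, by
        rwa [mul_assoc]⟩
    rw [IsLocalization.mk'_mem_map_algebraMap_iff]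
    exact ⟨1, m.primeCompl.one_mem, by rwa [one_mul]⟩
  · rw [Ideal.map_le_iff_le_comap]
    intro x hx
    obtain ⟨s, hs, h1⟩ := mem_cont.1 hx
    refine mem_cont.2 ⟨algebraMap R _ s, fun h => hs ((mem_of_map P m hPm s).1 h), ?_⟩
    rw [← map_gen P m g L, ← map_mul]
    exact Ideal.mem_map_of_mem _ h1

theorem exists_of_map [IsNoetherianRing R] (P m : Ideal R) [P.IsPrime] [m.IsPrime] (g : R) (L : ℕ)
    (f : Localization.AtPrime m)
    (h : (cont P g L).map (algebraMap R (Localization.AtPrime m)) =
      Ideal.span {algebraMap R (Localization.AtPrime m) g, f}) :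
    ∃ f' ∈ cont P g L, ∃ s : R, s ∉ m ∧ ∀ x ∈ cont P g L, s * x ∈ Ideal.span {g, f'} := by
  have hf : f ∈ (cont P g L).map (algebraMap R (Localization.AtPrime m)) := by
    rw [h]
    exact Ideal.subset_span (Or.inr rfl)
  obtain ⟨f0, t, hft⟩ := IsLocalization.exists_mk'_eq m.primeCompl f
  have hf2 := hf
  rw [← hft, IsLocalization.mk'_mem_map_algebraMap_iff] at hf2
  obtain ⟨r, hr, h1⟩ := hf2
  refine ⟨r * f0, h1, ?_⟩
  -- the extension of `(g, f')` is the extension of the contraction
  have hmap : (Ideal.span {g, r * f0}).map (algebraMap R (Localization.AtPrime m)) =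
      (cont P g L).map (algebraMap R (Localization.AtPrime m)) := by
    apply le_antisymm
    · apply Ideal.map_mono
      rw [Ideal.span_le]
      rintro y (rfl | rfl)
      · exact self_mem_cont
      · exact h1
    · rw [h, Ideal.span_le]
      rintro y (rfl | rfl)
      · exact Ideal.mem_map_of_mem _ (Ideal.subset_span (Or.inl rfl))
      · rw [SetLike.mem_coe, ← hft, IsLocalization.mk'_mem_map_algebraMap_iff]
        exact ⟨r, hr, Ideal.subset_span (Or.inr rfl)⟩
  have hloc : ∀ x ∈ cont P g L, ∃ s : R, s ∉ m ∧ s * x ∈ Ideal.span {g, r * f0} := by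
    intro x hx
    apply (map_mem_iff _ m x).1
    rw [hmap]
    exact Ideal.mem_map_of_mem _ hx
  obtain ⟨S, hS⟩ := IsNoetherian.noetherian (cont P g L)
  have hSm : ∀ x ∈ S, ∃ s : R, s ∉ m ∧ s * x ∈ Ideal.span {g, r * f0} := by
    intro x hx
    apply hloc
    rw [← hS]
    exact Submodule.subset_span hx
  have hprod : ∀ T : Finset R, (∀ x ∈ T, ∃ s : R, s ∉ m ∧ s * x ∈ Ideal.span {g, r * f0}) →
      ∃ s : R, s ∉ m ∧ ∀ x ∈ T, s * x ∈ Ideal.span {g, r * f0} := by
    classical
    intro T
    induction T using Finset.induction_on with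
    | empty =>
      intro _
      exact ⟨1, (Ideal.ne_top_iff_one m).1 (Ideal.IsPrime.ne_top inferInstance), by simp⟩
    | insert a T _ ih =>
      intro hT
      obtain ⟨s1, hs1, h2⟩ := ih fun x hx => hT x (Finset.mem_insert_of_mem hx)
      obtain ⟨s2, hs2, h3⟩ := hT a (Finset.mem_insert_self a T)
      refine ⟨s1 * s2, fun hh => (Ideal.IsPrime.mem_or_mem inferInstance hh).elim hs1 hs2, ?_⟩
      intro x hx
      rcases Finset.mem_insert.1 hx with rfl | hx
      · rw [mul_assoc]
        exact Ideal.mul_mem_left _ _ h3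
      · have e : s1 * s2 * x = s2 * (s1 * x) := by ring
        rw [e]
        exact Ideal.mul_mem_left _ _ (h2 x hx)
  obtain ⟨s, hs, h2⟩ := hprod S hSm
  refine ⟨s, hs, ?_⟩
  intro x hx
  rw [← hS] at hx
  refine Submodule.span_induction (p := fun x _ => s * x ∈ Ideal.span {g, r * f0})
    (fun y hy => h2 y hy) ?_ ?_ ?_ hx
  · rw [mul_zero]
    exact Ideal.zero_mem _
  · intro y z _ _ hy hz
    rw [mul_add]
    exact Ideal.add_mem _ hy hz
  · intro a y _ hy
    have e : s * (a • y) = a * (s * y) := by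
      rw [smul_eq_mul]
      ring
    rw [e]
    exact Ideal.mul_mem_left _ _ hy

end STCI.LG
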