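import Pool.Agent.H24.LG.Unmix
import Pool.Agent.H24.LG.Len
import Pool.Agent.H24.LG.Trans
import Pool.Agent.H41.STCI.Fam

/-!
# Row LocA: the local ring at a bad point (project MP_204867_LG)

`A = Localization.AtPrime m`, `φ = algebraMap R A`, `PA = P.map φ` (prime, `isPrime_map`; `mem_of_map`).

Proof. In `R`: `a'` and `b'` are relatively prime; `a' ≠ 0` or else `b'` is a unit, which is not in `P`; so `a'` is not a zero divisor and `b'`
is regular modulo `a'` (`STCI.reg_of_relPrime` in `H41/STCI/Fam.lean`, or `IsRelPrime.dvd_of_dvd_mul_left`).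
(1) `hprim` in `A` for `(φ a, φ b)`: let `σ ∉ PA`, `σ ξ ∈ (φ a, φ b)`. Write `σ = φ s / φ t`, `ξ = φ x / φ t'` (`IsLocalization.mk'_surjective`);
`φ (s x) ∈ (a, b).map φ`, so `r s x ∈ (a, b)` with `r ∉ m`; `r s ∉ P`; by `unmixed` `t'' x ∈ (a, b)` with `t'' ∉ m`; so
`φ x ∈ (φ a, φ b)`.
(2) `hreg` in `A`: `φ b ζ ∈ (φ a)`, `ζ = φ z / φ t`: `r b z ∈ (a)`, so `r z ∈ (a)`, so `ζ ∈ (φ a)`.
(3) `PA^M ≤ (φ a, φ b)` for some `M`: `s0 x ∈ √(a, b)` for `x ∈ P`, `φ s0` is a unit, so `PA ≤ √(φ a, φ b)`; `A` is noetherian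
(`Ideal.exists_pow_le_of_le_radical_of_fg`).
(4) `φ d * p ∈ (φ a, φ w)` for `p ∈ PA`: `Submodule.span_induction` / `Ideal.map_le_iff_le_comap` for the ideal `((φ a, φ w) : φ d)`.
`exists_len` in `A` gives `L`; then `cont_pow` gives the claim with `b' = (φ b)^j`.
-/

set_option autoImplicit false

namespace STCI.LG

universe u

theorem LocA_clear {R : Type u} [CommRing R] (m : Ideal R) [m.IsPrime] (I : Ideal R) (x : R)
    (h : algebraMap R (Localization.AtPrime m) x ∈ I.map (algebraMap R (Localization.AtPrime m))) :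
    ∃ r : R, r ∉ m ∧ r * x ∈ I := by
  rw [IsLocalization.algebraMap_mem_map_algebraMap_iff m.primeCompl] at h
  obtain ⟨r, hr, h1⟩ := h
  exact ⟨r, hr, h1⟩

theorem LocA_unit {R : Type u} [CommRing R] (m : Ideal R) [m.IsPrime] {r : R} (hr : r ∉ m) :
    IsUnit (algebraMap R (Localization.AtPrime m) r) :=
  IsLocalization.map_units (Localization.AtPrime m) (⟨r, hr⟩ : m.primeCompl)

theorem LocA_pair {R : Type u} [CommRing R] (m : Ideal R) [m.IsPrime] (a b : R) :
    (Ideal.span {a, b}).map (algebraMap R (Localization.AtPrime m)) =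
      Ideal.span {algebraMap R (Localization.AtPrime m) a, algebraMap R (Localization.AtPrime m) b} := by
  rw [Ideal.map_span, Set.image_pair]

theorem LocA_single {R : Type u} [CommRing R] (m : Ideal R) [m.IsPrime] (a : R) :
    (Ideal.span {a}).map (algebraMap R (Localization.AtPrime m)) =
      Ideal.span {algebraMap R (Localization.AtPrime m) a} := by
  rw [Ideal.map_span, Set.image_singleton]

theorem LocA_reg {R : Type u} [CommRing R] [IsDomain R] [UniqueFactorizationMonoid R] {a b : R}
    (hrel : IsRelPrime a b) (z : R) (hz : b * z ∈ Ideal.span {a}) : z ∈ Ideal.span {a} := by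
  obtain ⟨c, hc⟩ := Ideal.mem_span_singleton'.1 hz
  obtain ⟨c', -, h2⟩ := reg_of_relPrime hrel c z (by rw [hc, mul_comm])
  rw [h2]
  exact Ideal.mem_span_singleton'.2 ⟨c', rfl⟩

theorem LocA_ne {R : Type u} [CommRing R] {P : Ideal R} [hP : P.IsPrime] {a b : R} (hrel : IsRelPrime a b)
    (hb : b ∈ P) : a ≠ 0 := by
  rintro rfl
  have h1 : IsUnit b := hrel (dvd_zero b) dvd_rfl
  exact hP.ne_top (Ideal.eq_top_of_isUnit_mem _ hb h1)

theorem loc_bad {R : Type u} [CommRing R] [IsDomain R] [IsNoetherianRing R]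
    [UniqueFactorizationMonoid R] (P m : Ideal R) [P.IsPrime] [m.IsMaximal] (hPm : P ≤ m)
    [(P.map (algebraMap R (Localization.AtPrime m))).IsPrime]
    (hdim : OneDim P) (u v w0 : R) (hum : u ∈ m) (hvm : v ∈ m) (hwm : w0 ∈ m) (hu : u ≠ 0)
    (hv : ∀ z, v * z ∈ Ideal.span {u} → z ∈ Ideal.span {u})
    (hw0 : ∀ z, w0 * z ∈ Ideal.span {u, v} → z ∈ Ideal.span {u, v})
    (a b w d : R) (hrel : IsRelPrime a b) (hcut : CutNear P m a b) (hw : w ∈ P) (hd : d ∉ P)
    (hgen : ∀ p ∈ P, d * p ∈ Ideal.span {a, w}) :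
    ∃ L : ℕ, 1 ≤ L ∧ ∀ j : ℕ, 1 ≤ j → ∃ b' : Localization.AtPrime m,
      cont (P.map (algebraMap R (Localization.AtPrime m))) (algebraMap R _ a) (L * j) =
        Ideal.span {algebraMap R (Localization.AtPrime m) a, b'} := by
  have hP : P.IsPrime := inferInstance
  obtain ⟨haP, hbP, s0, hs0, hrad⟩ := id hcut
  have ha0 : a ≠ 0 := LocA_ne hrel hbP
  -- primary
  have hprim : ∀ σ ξ : Localization.AtPrime m, σ ∉ P.map (algebraMap R (Localization.AtPrime m)) →
      σ * ξ ∈ Ideal.span {algebraMap R (Localization.AtPrime m) a, algebraMap R (Localization.AtPrime m) b} →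
      ξ ∈ Ideal.span {algebraMap R (Localization.AtPrime m) a, algebraMap R (Localization.AtPrime m) b} := by
    intro σ ξ hσ hσξ
    obtain ⟨s, t, rfl⟩ := IsLocalization.exists_mk'_eq m.primeCompl σ
    obtain ⟨x, t', rfl⟩ := IsLocalization.exists_mk'_eq m.primeCompl ξ
    rw [IsLocalization.mk'_mem_iff] at hσ ⊢
    have hsP : s ∉ P := fun h => hσ (Ideal.mem_map_of_mem _ h)
    rw [← IsLocalization.mk'_mul, IsLocalization.mk'_mem_iff, ← LocA_pair] at hσξ
    obtain ⟨r, hr, h1⟩ := LocA_clear m _ _ hσξ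
    have hrP : r ∉ P := fun h => hr (hPm h)
    have h2 : r * s ∉ P := fun h => (hP.mem_or_mem h).elim hrP hsP
    rw [← mul_assoc] at h1
    obtain ⟨t'', ht'', h3⟩ := unmixed P m hdim u v w0 a b hum hvm hwm
      (fun z hz => (mul_eq_zero.1 hz).resolve_left hu) hv hw0
      (fun z hz => (mul_eq_zero.1 hz).resolve_left ha0) (fun z hz => LocA_reg hrel z hz) hcut (r * s) x h2 h1
    have h4 := Ideal.mem_map_of_mem (algebraMap R (Localization.AtPrime m)) h3
    rw [LocA_pair, map_mul] at h4
    exact (Ideal.unit_mul_mem_iff_mem _ (LocA_unit m ht'')).1 h4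
  have hreg : ∀ ζ : Localization.AtPrime m,
      algebraMap R (Localization.AtPrime m) b * ζ ∈ Ideal.span {algebraMap R (Localization.AtPrime m) a} →
      ζ ∈ Ideal.span {algebraMap R (Localization.AtPrime m) a} := by
    intro ζ hζ
    obtain ⟨z, t, rfl⟩ := IsLocalization.exists_mk'_eq m.primeCompl ζ
    rw [IsLocalization.mk'_mem_iff]
    have h0 : algebraMap R (Localization.AtPrime m) (b * z) ∈ (Ideal.span {a}).map
        (algebraMap R (Localization.AtPrime m)) := by
      rw [LocA_single]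
      have h1 : algebraMap R (Localization.AtPrime m) (b * z) =
          algebraMap R (Localization.AtPrime m) b * IsLocalization.mk' (Localization.AtPrime m) z t *
            algebraMap R (Localization.AtPrime m) t := by
        rw [mul_assoc, IsLocalization.mk'_spec, map_mul]
      rw [h1]
      exact Ideal.mul_mem_right _ _ hζ
    obtain ⟨r, hr, h1⟩ := LocA_clear m _ _ h0
    have h2 : b * (r * z) ∈ Ideal.span {a} := by
      have : b * (r * z) = r * (b * z) := by ring
      rw [this]
      exact h1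
    have h3 := LocA_reg hrel _ h2
    have h4 := Ideal.mem_map_of_mem (algebraMap R (Localization.AtPrime m)) h3
    rw [LocA_single, map_mul] at h4
    exact (Ideal.unit_mul_mem_iff_mem _ (LocA_unit m hr)).1 h4
  have hle : P.map (algebraMap R (Localization.AtPrime m)) ≤
      (Ideal.span {algebraMap R (Localization.AtPrime m) a, algebraMap R (Localization.AtPrime m) b}).radical := by
    rw [Ideal.map_le_iff_le_comap]
    intro x hx
    rw [Ideal.mem_comap]
    obtain ⟨n, hn⟩ := hrad x hx
    refine ⟨n, ?_⟩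
    have h4 := Ideal.mem_map_of_mem (algebraMap R (Localization.AtPrime m)) hn
    rw [LocA_pair, map_pow, map_mul, mul_pow] at h4
    exact (Ideal.unit_mul_mem_iff_mem _ ((LocA_unit m hs0).pow n)).1 h4
  have hfg : (P.map (algebraMap R (Localization.AtPrime m))).FG :=
    ((isNoetherianRing_iff_ideal_fg R).1 inferInstance P).map _
  obtain ⟨M, hM⟩ := Ideal.exists_pow_le_of_le_radical_of_fg hle hfg
  have hgenA : ∀ p ∈ P.map (algebraMap R (Localization.AtPrime m)),
      algebraMap R (Localization.AtPrime m) d * p ∈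
        Ideal.span {algebraMap R (Localization.AtPrime m) a, algebraMap R (Localization.AtPrime m) w} := by
    intro p hp
    rw [← LocA_pair]
    refine Submodule.span_induction (p := fun p _ => algebraMap R (Localization.AtPrime m) d * p ∈
      (Ideal.span {a, w}).map (algebraMap R (Localization.AtPrime m))) ?_ ?_ ?_ ?_ hp
    · rintro _ ⟨x, hx, rfl⟩
      rw [← map_mul]
      exact Ideal.mem_map_of_mem _ (hgen x hx)
    · rw [mul_zero]
      exact Ideal.zero_mem _
    · intro x y _ _ hx hy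
      rw [mul_add]
      exact Ideal.add_mem _ hx hy
    · intro c x _ hx
      have : algebraMap R (Localization.AtPrime m) d * (c • x) =
          c * (algebraMap R (Localization.AtPrime m) d * x) := by
        rw [smul_eq_mul]
        ring
      rw [this]
      exact Ideal.mul_mem_left _ _ hx
  obtain ⟨L, hL1, hL⟩ := exists_len (P.map (algebraMap R (Localization.AtPrime m)))
    (algebraMap R (Localization.AtPrime m) a) (algebraMap R (Localization.AtPrime m) b)
    (algebraMap R (Localization.AtPrime m) w) (algebraMap R (Localization.AtPrime m) d)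
    (Ideal.mem_map_of_mem _ haP) (Ideal.mem_map_of_mem _ hbP) (Ideal.mem_map_of_mem _ hw)
    (fun h => hd ((mem_of_map P m hPm d).1 h)) hgenA M hM hprim
  exact ⟨L, hL1, fun j hj => ⟨_, cont_pow _ _ _ L j hj hL hreg⟩⟩

end STCI.LG
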