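import Pool.Agent.H24.LG.Stab
import Pool.Agent.H24.LG.Chain
import Pool.Agent.H24.LG.Trans

/-!
# Row LocB: stability at a bad point, stated in `R` (project MP_204867_LG)

`A = Localization.AtPrime m`, `φ = algebraMap R A`, `PA = P.map φ`. Proof. Apply `stability` in `A` to `φ a`, `b`, `φ w`, `φ d`, `L`
(`oneDim_map`; `PA ≠ maximalIdeal A` as `P ≠ m`, `mem_of_map`; `IsLocalization.AtPrime.map_eq_maximalIdeal` : `m.map φ = maximalIdeal A`) and
get `N`. Let `g - a ∈ m^N P` in `R`: `φ g - φ a ∈ (maximalIdeal A)^N PA` (`Ideal.mem_map_of_mem`, `Ideal.map_mul`, `Ideal.map_pow`).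
The hypothesis on chains: suppose `φ d p ∈ (φ g, φ w) + PA^2` for all `p ∈ PA`. For each of the finitely many generators `p` of `P` there is
`r ∉ m` with `r d p ∈ (g, w) + P^2`; so there is `r ∉ m` with `r d P ≤ (g, w) + P^2`, `r d ∉ P`, and by `chain_of` `Chain P g w`
(`g ∈ P` as `a ∈ P` and `g - a ∈ P`). Then `Chain PA (φ g) (φ w)`: if `σ = φ s / φ t`, `σ ∉ PA` and `σ φ w^i ∈ (φ g) + PA^(i+1)`, then
`r s w^i ∈ (g) + P^(i+1)` with `r ∉ m`, `r s ∉ P`, contradiction.
So `cont PA (φ g) L = (φ g, f)`; conclude with `cont_map` and `exists_of_map`.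
-/

set_option autoImplicit false

namespace STCI.LG

universe u

/-- membership in an extended ideal -/
theorem LocB_mem {R : Type u} [CommRing R] [IsDomain R] (m : Ideal R) [m.IsPrime] (I : Ideal R) (x : R)
    (h : algebraMap R (Localization.AtPrime m) x ∈ I.map (algebraMap R (Localization.AtPrime m))) :
    ∃ r : R, r ∉ m ∧ r * x ∈ I := by
  rw [IsLocalization.mem_map_algebraMap_iff m.primeCompl] at h
  obtain ⟨⟨y, s⟩, hy⟩ := h
  simp only at hy
  rw [← map_mul, IsLocalization.eq_iff_exists m.primeCompl] at hy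
  obtain ⟨c, hc⟩ := hy
  refine ⟨(c : R) * s, fun h => ?_, ?_⟩
  · rcases (Ideal.IsPrime.mem_or_mem ‹m.IsPrime› h) with h | h
    · exact c.2 h
    · exact s.2 h
  · have e : (c : R) * s * x = c * (x * s) := by ring
    rw [e, hc]
    exact Ideal.mul_mem_left _ _ y.2

/-- a common denominator for a finitely generated ideal -/
theorem LocB_fg {R : Type u} [CommRing R] [IsNoetherianRing R] (m : Ideal R) [hm : m.IsPrime] (P I : Ideal R) (d : R)
    (h : ∀ p ∈ P, ∃ r : R, r ∉ m ∧ r * (d * p) ∈ I) : ∃ r : R, r ∉ m ∧ ∀ p ∈ P, r * d * p ∈ I := by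
  classical
  obtain ⟨T, hT⟩ := (IsNoetherian.noetherian P : P.FG)
  have h1 : ∀ S : Finset R, S ⊆ T → ∃ r : R, r ∉ m ∧ ∀ p ∈ S, r * d * p ∈ I := by
    intro S
    induction S using Finset.induction_on with
    | empty => intro _; exact ⟨1, fun h => hm.ne_top ((Ideal.eq_top_iff_one m).2 h), by simp⟩
    | insert x S hx ih =>
      intro hS
      obtain ⟨r, hr, h2⟩ := ih fun y hy => hS (Finset.mem_insert_of_mem hy)
      have hxP : x ∈ P := by
        rw [← hT]
        exact Submodule.subset_span (hS (Finset.mem_insert_self x S))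
      obtain ⟨r', hr', h3⟩ := h x hxP
      refine ⟨r * r', fun h => (hm.mem_or_mem h).elim hr hr', ?_⟩
      intro p hp
      rcases Finset.mem_insert.1 hp with rfl | hp
      · have e : r * r' * d * p = r * (r' * (d * p)) := by ring
        rw [e]
        exact Ideal.mul_mem_left _ _ h3
      · have e : r * r' * d * p = r' * (r * d * p) := by ring
        rw [e]
        exact Ideal.mul_mem_left _ _ (h2 p hp)
  obtain ⟨r, hr, h2⟩ := h1 T (Finset.Subset.refl T)
  refine ⟨r, hr, ?_⟩
  intro p hp
  rw [← hT] at hp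
  refine Submodule.span_induction (p := fun p _ => r * d * p ∈ I) ?_ ?_ ?_ ?_ hp
  · intro x hx
    exact h2 x hx
  · rw [mul_zero]
    exact I.zero_mem
  · intro x y _ _ hx hy
    rw [mul_add]
    exact I.add_mem hx hy
  · intro c x _ hx
    rw [smul_eq_mul]
    have e : r * d * (c * x) = c * (r * d * x) := by ring
    rw [e]
    exact Ideal.mul_mem_left _ _ hx

theorem loc_stab {R : Type u} [CommRing R] [IsDomain R] [IsNoetherianRing R]
    [UniqueFactorizationMonoid R] (P m : Ideal R) [P.IsPrime] [m.IsMaximal] (hPm : P < m)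
    [(P.map (algebraMap R (Localization.AtPrime m))).IsPrime]
    (hdim : OneDim P) (hnp : ∀ π : R, P ≠ Ideal.span {π}) (a w d : R) (L : ℕ) (hL : 1 ≤ L)
    (ha : a ∈ P) (hw : w ∈ P) (hd : d ∉ P) (hgen : ∀ p ∈ P, d * p ∈ Ideal.span {a, w})
    (b : Localization.AtPrime m)
    (hab : cont (P.map (algebraMap R (Localization.AtPrime m))) (algebraMap R _ a) L =
        Ideal.span {algebraMap R (Localization.AtPrime m) a, b}) :
    ∃ N : ℕ, ∀ g : R, g - a ∈ m ^ N * P →
      ∃ f ∈ cont P g L, ∃ s : R, s ∉ m ∧ ∀ x ∈ cont P g L, s * x ∈ Ideal.span {g, f} := by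
  have hPle : P ≤ m := hPm.le
  have hmm : m.map (algebraMap R (Localization.AtPrime m)) = IsLocalRing.maximalIdeal (Localization.AtPrime m) :=
    Localization.AtPrime.map_eq_maximalIdeal
  have hPA1 : P.map (algebraMap R (Localization.AtPrime m)) ≠ IsLocalRing.maximalIdeal (Localization.AtPrime m) := by
    intro h
    apply not_le_of_gt hPm
    intro x hx
    rw [← mem_of_map P m hPle x, h]
    exact (IsLocalization.AtPrime.to_map_mem_maximal_iff (Localization.AtPrime m) m x).2 hx
  have hd' : algebraMap R (Localization.AtPrime m) d ∉ P.map (algebraMap R (Localization.AtPrime m)) :=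
    fun h => hd ((mem_of_map P m hPle d).1 h)
  have hgen' : ∀ p ∈ P.map (algebraMap R (Localization.AtPrime m)),
      algebraMap R (Localization.AtPrime m) d * p ∈
        Ideal.span {algebraMap R (Localization.AtPrime m) a, algebraMap R (Localization.AtPrime m) w} := by
    intro p hp
    refine Submodule.span_induction (p := fun p _ => algebraMap R (Localization.AtPrime m) d * p ∈
        Ideal.span {algebraMap R (Localization.AtPrime m) a, algebraMap R (Localization.AtPrime m) w}) ?_ ?_ ?_ ?_ hp
    · rintro _ ⟨x, hx, rfl⟩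
      rw [← map_mul]
      have h1 := Ideal.mem_map_of_mem (algebraMap R (Localization.AtPrime m)) (hgen x hx)
      rwa [Ideal.map_span, Set.image_pair] at h1
    · rw [mul_zero]
      exact Ideal.zero_mem _
    · intro x y _ _ hx hy
      rw [mul_add]
      exact Ideal.add_mem _ hx hy
    · intro c x _ hx
      rw [smul_eq_mul, mul_left_comm]
      exact Ideal.mul_mem_left _ _ hx
  obtain ⟨N, hN⟩ := stability (P.map (algebraMap R (Localization.AtPrime m))) (oneDim_map P m hPle hdim) hPA1
    (algebraMap R _ a) b (algebraMap R _ w) (algebraMap R _ d) L hL (Ideal.mem_map_of_mem _ ha)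
    (Ideal.mem_map_of_mem _ hw) hd' hgen' hab
  refine ⟨N, fun g hg => ?_⟩
  have hgP : g ∈ P := by
    have h0 : m ^ N * P ≤ P := Ideal.mul_le_right
    have h1 : g - a ∈ P := h0 hg
    have h2 := P.add_mem h1 ha
    rwa [sub_add_cancel] at h2
  have hg' : algebraMap R (Localization.AtPrime m) g - algebraMap R (Localization.AtPrime m) a ∈
      IsLocalRing.maximalIdeal (Localization.AtPrime m) ^ N * P.map (algebraMap R (Localization.AtPrime m)) := by
    rw [← map_sub]
    have h1 := Ideal.mem_map_of_mem (algebraMap R (Localization.AtPrime m)) hg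
    rw [Ideal.map_mul, Ideal.map_pow, hmm] at h1
    exact h1
  obtain ⟨f, hf⟩ := hN _ hg' (by
    intro h
    have h1 : ∀ p ∈ P, ∃ r : R, r ∉ m ∧ r * (d * p) ∈ Ideal.span {g, w} ⊔ P ^ 2 := by
      intro p hp
      have h2 := h _ (Ideal.mem_map_of_mem (algebraMap R (Localization.AtPrime m)) hp)
      apply LocB_mem
      rw [map_mul, Ideal.map_sup, Ideal.map_pow, Ideal.map_span, Set.image_pair]
      exact h2
    obtain ⟨r, hr, h3⟩ := LocB_fg m P _ d h1
    have hrd : r * d ∉ P := fun h => (Ideal.IsPrime.mem_or_mem ‹P.IsPrime› h).elim (fun h => hr (hPle h)) hd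
    have hch := chain_of P hnp g w (r * d) hgP hw hrd h3
    intro i σ hσ hmem
    obtain ⟨⟨s, t⟩, hst⟩ := IsLocalization.surj m.primeCompl σ
    simp only at hst
    have h4 : algebraMap R (Localization.AtPrime m) (s * w ^ i) ∈
        (Ideal.span {g} ⊔ P ^ (i + 1)).map (algebraMap R (Localization.AtPrime m)) := by
      rw [map_mul, map_pow, ← hst, Ideal.map_sup, Ideal.map_pow, Ideal.map_span, Set.image_singleton]
      have e : σ * algebraMap R (Localization.AtPrime m) t * algebraMap R (Localization.AtPrime m) w ^ i =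
        algebraMap R (Localization.AtPrime m) t * (σ * algebraMap R (Localization.AtPrime m) w ^ i) := by ring
      rw [e]
      exact Ideal.mul_mem_left _ _ hmem
    obtain ⟨r', hr', h5⟩ := LocB_mem m _ _ h4
    have hs : s ∉ P := by
      intro hs
      have h6 := Ideal.mem_map_of_mem (algebraMap R (Localization.AtPrime m)) hs
      rw [← hst] at h6
      rcases Ideal.IsPrime.mem_or_mem inferInstance h6 with h7 | h7
      · exact hσ h7
      · exact t.2 (hPle ((mem_of_map P m hPle _).1 h7))
    refine hch i (r' * s) (fun h => (Ideal.IsPrime.mem_or_mem ‹P.IsPrime› h).elim (fun h => hr' (hPle h)) hs) ?_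
    rw [mul_assoc]
    exact h5)
  have h8 := cont_map P m hPle g L
  rw [h8] at hf
  exact exists_of_map P m g L f hf

end STCI.LG
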