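import Pool.Agent.H24.LG.Copr
import Pool.Agent.H24.LG.Len
import Pool.Agent.H24.LG.Trans
import Pool.Agent.H41.STCI.Fam

/-!
# Row LocC: the good points (project MP_204867_LG)

`A = Localization.AtPrime m`, `φ = algebraMap R A`, `PA = P.map φ`. Proof. Say `α ∉ m` (the other case is symmetric; exchange `x` and `y`).
`φ d`, `φ α` are units of `A`, `φ x = φ α⁻¹ (φ d φ g - φ β φ y)`, and `PA = (φ x, φ y)` (`hgen`, `φ d` a unit), so `PA = (φ g, φ y)`.
`cont PA (φ g) 1 = PA` (`≤`: `cont_le`; `≥`: `pow_le_cont`). `φ y` is regular modulo `φ g`: `CutNear P m g y` holds with `s0 = d α`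
(`d α x ∈ (g, y)` etc.: `d p = ξ x + η y`, `α d p = ξ (d g - β y) + α η y`), so by `exists_coprime` `g = c g'`, `y = c y'`, `c ∉ m`,
`IsRelPrime g' y'`; if `φ y ζ ∈ (φ g)` with `ζ = φ z / φ t`, then `r y z ∈ (g)` for some `r ∉ m`, so `r c y' z ∈ (c g')`, `y' (r z) ∈ (g')`
(`c ≠ 0`), `r z ∈ (g')` (`STCI.reg_of_relPrime`, or `IsRelPrime.dvd_of_dvd_mul_left`), `c r z ∈ (g)` and `ζ ∈ (φ g)`.
So `cont_pow` (`L = 1`) gives `cont PA (φ g) (1 * j) = (φ g, (φ y)^j)`; conclude with `cont_map` and `exists_of_map`.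
-/

set_option autoImplicit false

namespace STCI.LG

universe u

theorem LocC_aux {R : Type u} [CommRing R] [IsDomain R] [IsNoetherianRing R]
    [UniqueFactorizationMonoid R] (P m : Ideal R) [P.IsPrime] [m.IsMaximal] (hPm : P ≤ m)
    (hnp : ∀ π : R, P ≠ Ideal.span {π}) (x y d g α β : R) (hy : y ∈ P) (hg : g ∈ P)
    (hd : d ∉ m) (hgen : ∀ p ∈ P, d * p ∈ Ideal.span {x, y}) (hα : α ∉ m)
    (hdg : d * g = α * x + β * y) (L : ℕ) (hL : 1 ≤ L) :
    ∃ f ∈ cont P g L, ∃ s : R, s ∉ m ∧ ∀ x ∈ cont P g L, s * x ∈ Ideal.span {g, f} := by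
  have hmp : m.IsPrime := Ideal.IsMaximal.isPrime inferInstance
  have hdα : d * α ∉ m := fun h => (hmp.mem_or_mem h).elim hd hα
  -- generation near `m`
  have hgen2 : ∀ p ∈ P, d * α * p ∈ Ideal.span {g, y} := by
    intro p hp
    obtain ⟨ξ, η, h⟩ := Ideal.mem_span_pair.1 (hgen p hp)
    rw [Ideal.mem_span_pair]
    refine ⟨ξ * d, α * η - ξ * β, ?_⟩
    have e1 : ξ * d * g = ξ * (d * g) := by ring
    rw [e1, hdg]
    have e2 : d * α * p = α * (d * p) := by ring
    rw [e2, ← h]
    ring
  have hcut : CutNear P m g y :=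
    ⟨hg, hy, d * α, hdα, fun p hp => Ideal.le_radical (hgen2 p hp)⟩
  obtain ⟨c, g', y', hc, hgc, hyc, hrel⟩ := exists_coprime P m hnp g y hcut
  have hc0 : c ≠ 0 := fun h => hc (h ▸ m.zero_mem)
  have hPA : (P.map (algebraMap R (Localization.AtPrime m))).IsPrime := isPrime_map P m hPm
  have hunit : ∀ r : R, r ∉ m → IsUnit (algebraMap R (Localization.AtPrime m) r) := fun r hr =>
    IsLocalization.map_units (Localization.AtPrime m) (⟨r, hr⟩ : m.primeCompl)
  have hgA : algebraMap R (Localization.AtPrime m) g ∈ P.map (algebraMap R (Localization.AtPrime m)) :=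
    Ideal.mem_map_of_mem _ hg
  have hyA : algebraMap R (Localization.AtPrime m) y ∈ P.map (algebraMap R (Localization.AtPrime m)) :=
    Ideal.mem_map_of_mem _ hy
  -- cancel units in ideals
  have hcancel : ∀ (I : Ideal (Localization.AtPrime m)) (r : R) (z : Localization.AtPrime m), r ∉ m →
      algebraMap R (Localization.AtPrime m) r * z ∈ I → z ∈ I := by
    intro I r z hr hz
    exact (Ideal.unit_mul_mem_iff_mem I (hunit r hr)).1 hz
  have hPAeq : P.map (algebraMap R (Localization.AtPrime m)) =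
      Ideal.span {algebraMap R (Localization.AtPrime m) g, algebraMap R (Localization.AtPrime m) y} := by
    apply le_antisymm
    · rw [Ideal.map_le_iff_le_comap]
      intro p hp
      rw [Ideal.mem_comap]
      apply hcancel _ (d * α) _ hdα
      rw [← map_mul]
      have h1 := Ideal.mem_map_of_mem (algebraMap R (Localization.AtPrime m)) (hgen2 p hp)
      rw [Ideal.map_span, Set.image_pair] at h1
      exact h1
    · rw [Ideal.span_le]
      intro z hz
      rcases hz with hz | hz
      · rw [hz]; exact hgA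
      · rw [Set.mem_singleton_iff.1 hz]; exact hyA
  have hcont1 : cont (P.map (algebraMap R (Localization.AtPrime m)))
      (algebraMap R (Localization.AtPrime m) g) 1 =
      Ideal.span {algebraMap R (Localization.AtPrime m) g, algebraMap R (Localization.AtPrime m) y} := by
    rw [← hPAeq]
    apply le_antisymm (cont_le hgA le_rfl)
    have h1 := pow_le_cont (P := P.map (algebraMap R (Localization.AtPrime m)))
      (g := algebraMap R (Localization.AtPrime m) g) (L := 1)
    rwa [pow_one] at h1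
  have hreg : ∀ z : Localization.AtPrime m, algebraMap R (Localization.AtPrime m) y * z ∈
      Ideal.span {algebraMap R (Localization.AtPrime m) g} →
      z ∈ Ideal.span {algebraMap R (Localization.AtPrime m) g} := by
    intro z hz
    obtain ⟨⟨r0, t⟩, hzt⟩ := IsLocalization.surj m.primeCompl z
    simp only at hzt
    have h1 : algebraMap R (Localization.AtPrime m) (y * r0) ∈
        (Ideal.span {g}).map (algebraMap R (Localization.AtPrime m)) := by
      rw [Ideal.map_span, Set.image_singleton, map_mul, ← hzt, ← mul_assoc]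
      exact Ideal.mul_mem_right _ _ hz
    rw [IsLocalization.algebraMap_mem_map_algebraMap_iff m.primeCompl] at h1
    obtain ⟨r, hr, h2⟩ := h1
    obtain ⟨k, hk⟩ := Ideal.mem_span_singleton.1 h2
    have hr' : r ∉ m := hr
    have h3 : y' * (r * r0) = g' * k := by
      apply mul_left_cancel₀ hc0
      have e1 : c * (y' * (r * r0)) = r * ((c * y') * r0) := by ring
      have e2 : c * (g' * k) = (c * g') * k := by ring
      rw [e1, e2, ← hgc, ← hyc, hk]
    have h4 : g' ∣ r * r0 := hrel.dvd_of_dvd_mul_left ⟨k, h3⟩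
    have h5 : c * (r * r0) ∈ Ideal.span {g} := by
      rw [Ideal.mem_span_singleton, hgc]
      exact mul_dvd_mul_left c h4
    have h6 : algebraMap R (Localization.AtPrime m) r0 ∈
        Ideal.span {algebraMap R (Localization.AtPrime m) g} := by
      apply hcancel _ (c * r) _ (fun h => (hmp.mem_or_mem h).elim hc hr')
      rw [← map_mul, mul_assoc]
      have h7 := Ideal.mem_map_of_mem (algebraMap R (Localization.AtPrime m)) h5
      rwa [Ideal.map_span, Set.image_singleton] at h7
    apply hcancel _ (t : R) _ t.2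
    rw [mul_comm, hzt]
    exact h6
  have h1 := cont_pow (P.map (algebraMap R (Localization.AtPrime m))) _ _ 1 L hL hcont1 hreg
  rw [one_mul, cont_map P m hPm g L] at h1
  exact exists_of_map P m g L _ h1

theorem loc_good {R : Type u} [CommRing R] [IsDomain R] [IsNoetherianRing R]
    [UniqueFactorizationMonoid R] (P m : Ideal R) [P.IsPrime] [m.IsMaximal] (hPm : P ≤ m)
    (hnp : ∀ π : R, P ≠ Ideal.span {π}) (x y d g α β : R) (hx : x ∈ P) (hy : y ∈ P) (hg : g ∈ P)
    (hd : d ∉ m) (hgen : ∀ p ∈ P, d * p ∈ Ideal.span {x, y}) (hαβ : α ∉ m ∨ β ∉ m)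
    (hdg : d * g = α * x + β * y) (L : ℕ) (hL : 1 ≤ L) :
    ∃ f ∈ cont P g L, ∃ s : R, s ∉ m ∧ ∀ x ∈ cont P g L, s * x ∈ Ideal.span {g, f} := by
  rcases hαβ with h | h
  · exact LocC_aux P m hPm hnp x y d g α β hy hg hd hgen h hdg L hL
  · refine LocC_aux P m hPm hnp y x d g β α hx hg hd ?_ h ?_ L hL
    · intro p hp
      rw [Set.pair_comm]
      exact hgen p hp
    · rw [hdg, add_comm]

end STCI.LG
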