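import Pool.Agent.H24.LG.Defs

/-!
# Row RegSeq: every maximal ideal of `k[x_0, x_1, x_2]` contains a regular sequence of length three (project MP_204867_LG)

Proof. `R ⧸ m` is integral over `k` (`MvPolynomial.comp_C_integral_of_surjective_of_isJacobsonRing` with the quotient map), so there are
monic `f_0, f_1, f_2 : k[T]` with `f_i(x_i) ∈ m` (`Polynomial.eval₂ ...`; write `aeval (X i) f_i`). Take `u = f_2(x_2)`, `v = f_1(x_1)`,
`w = f_0(x_0)`.
Key (for any comm ring `B`, ideal `b` of `B`, monic `w : B[X]`): if `w z ∈ b.map C` then `z ∈ b.map C`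
(`Ideal.mem_map_C_iff` : coefficients in `b`; pass to `(B ⧸ b)[X]`, where the monic image of `w` is not a zero divisor; the kernel of
`Polynomial.mapRingHom (Ideal.Quotient.mk b)` is `b.map C`).
Through `MvPolynomial.finSuccEquiv k 2 : MvPolynomial (Fin 3) k ≃ (MvPolynomial (Fin 2) k)[X]`, `x_0` goes to `X` and `x_(j+1)` to
`C x_j`: so `w` goes to a monic polynomial (the image of `f_0` under `k → MvPolynomial (Fin 2) k`), and `(u, v)` to the extension of
`(f_2(x_1), f_1(x_0))` from `B = MvPolynomial (Fin 2) k`: this gives the last clause. For the second clause: `v = C v'`, `u = C u'` with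
`u' = f_2(x_1)`, `v' = f_1(x_0)` in `B`: `C v' z ∈ (C u')` means that every coefficient `z_i` has `v' z_i ∈ (u')`; and for `B` use
`finSuccEquiv k 1` in the same way. `u ≠ 0`: `f_2` is not zero and `aeval (X 2)` is injective (or: `u` is transported to `C (C ..)`).
(An alternative for the second clause: `u` and `v` are relatively prime, as a common factor involves no variable.)
-/

set_option autoImplicit false

namespace STCI.LG

open MvPolynomial

universe u

theorem RegSeq_key {B : Type u} [CommRing B] (b : Ideal B) (w : Polynomial B) (hw : w.Monic)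
    (z : Polynomial B) (h : w * z ∈ b.map (Polynomial.C : B →+* Polynomial B)) :
    z ∈ b.map (Polynomial.C : B →+* Polynomial B) := by
  have hk : ∀ f : Polynomial B, f ∈ b.map (Polynomial.C : B →+* Polynomial B) ↔
      f.map (Ideal.Quotient.mk b) = 0 := by
    intro f
    rw [Ideal.mem_map_C_iff]
    constructor
    · intro hf
      ext n
      rw [Polynomial.coeff_map, Polynomial.coeff_zero]
      exact Ideal.Quotient.eq_zero_iff_mem.2 (hf n)
    · intro hf n
      have h1 := congrArg (fun p => Polynomial.coeff p n) hf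
      simp only [Polynomial.coeff_map, Polynomial.coeff_zero] at h1
      exact Ideal.Quotient.eq_zero_iff_mem.1 h1
  rw [hk] at h ⊢
  rw [Polynomial.map_mul] at h
  exact (hw.map (Ideal.Quotient.mk b)).mul_right_eq_zero_iff.1 h

theorem RegSeq_up {B : Type u} [CommRing B] {u' v' : B}
    (h : ∀ z, v' * z ∈ Ideal.span {u'} → z ∈ Ideal.span {u'}) (z : Polynomial B)
    (hz : Polynomial.C v' * z ∈ Ideal.span {(Polynomial.C u' : Polynomial B)}) :
    z ∈ Ideal.span {(Polynomial.C u' : Polynomial B)} := by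
  have hs : Ideal.span {(Polynomial.C u' : Polynomial B)} =
      (Ideal.span {u'}).map (Polynomial.C : B →+* Polynomial B) := by
    rw [Ideal.map_span, Set.image_singleton]
  rw [hs, Ideal.mem_map_C_iff] at hz ⊢
  intro n
  have h1 := hz n
  rw [Polynomial.coeff_C_mul] at h1
  exact h _ h1

theorem RegSeq_tr {A B : Type u} [CommRing A] [CommRing B] (e : A ≃+* B) (S : Set A) (z : A) :
    z ∈ Ideal.span S ↔ e z ∈ Ideal.span (e '' S) := by
  rw [← Ideal.map_span, Ideal.mem_map_of_equiv]
  constructor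
  · intro h
    exact ⟨z, h, rfl⟩
  · rintro ⟨x, hx, hxz⟩
    rwa [e.injective hxz] at hx

/-- `X_0` goes to the polynomial variable -/
theorem RegSeq_zero (k : Type u) [Field k] (n : ℕ) (f : Polynomial k) :
    finSuccEquiv k n (Polynomial.aeval (X 0 : MvPolynomial (Fin (n + 1)) k) f) =
      f.map (algebraMap k (MvPolynomial (Fin n) k)) := by
  have h2 : finSuccEquiv k n (Polynomial.aeval (X 0 : MvPolynomial (Fin (n + 1)) k) f) =
      Polynomial.aeval (finSuccEquiv k n (X 0)) f :=
    (Polynomial.aeval_algHom_apply (finSuccEquiv k n).toAlgHom (X 0) f).symm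
  rw [h2, finSuccEquiv_X_zero]
  exact Polynomial.aeval_X_left_eq_map f

theorem RegSeq_succ (k : Type u) [Field k] (n : ℕ) (j : Fin n) (f : Polynomial k) :
    finSuccEquiv k n (Polynomial.aeval (X j.succ : MvPolynomial (Fin (n + 1)) k) f) =
      Polynomial.C (Polynomial.aeval (X j : MvPolynomial (Fin n) k) f) := by
  have h2 : finSuccEquiv k n (Polynomial.aeval (X j.succ : MvPolynomial (Fin (n + 1)) k) f) =
      Polynomial.aeval (finSuccEquiv k n (X j.succ)) f :=
    (Polynomial.aeval_algHom_apply (finSuccEquiv k n).toAlgHom (X j.succ) f).symm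
  rw [h2, finSuccEquiv_X_succ]
  exact Polynomial.aeval_algHom_apply (Polynomial.CAlgHom (R := k) (A := MvPolynomial (Fin n) k)) (X j) f

theorem RegSeq_int (k : Type u) [Field k] (m : Ideal (MvPolynomial (Fin 3) k)) [m.IsMaximal] (i : Fin 3) :
    ∃ f : Polynomial k, f.Monic ∧ Polynomial.aeval (X i : MvPolynomial (Fin 3) k) f ∈ m := by
  let _ : Field (MvPolynomial (Fin 3) k ⧸ m) := Ideal.Quotient.field m
  have h := MvPolynomial.comp_C_integral_of_surjective_of_isJacobsonRing (Ideal.Quotient.mk m)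
    Ideal.Quotient.mk_surjective (Ideal.Quotient.mk m (X i))
  obtain ⟨f, hf, h1⟩ := h
  refine ⟨f, hf, ?_⟩
  rw [← Ideal.Quotient.eq_zero_iff_mem, ← h1, Polynomial.aeval_def, Polynomial.hom_eval₂]
  rfl

theorem exists_regSeq (k : Type u) [Field k] (m : Ideal (MvPolynomial (Fin 3) k)) [m.IsMaximal] :
    ∃ u v w : MvPolynomial (Fin 3) k, u ∈ m ∧ v ∈ m ∧ w ∈ m ∧ u ≠ 0 ∧
      (∀ z, v * z ∈ Ideal.span {u} → z ∈ Ideal.span {u}) ∧
      (∀ z, w * z ∈ Ideal.span {u, v} → z ∈ Ideal.span {u, v}) := by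
  obtain ⟨f0, m0, h0⟩ := RegSeq_int k m 0
  obtain ⟨f1, m1, h1⟩ := RegSeq_int k m 1
  obtain ⟨f2, m2, h2⟩ := RegSeq_int k m 2
  set u : MvPolynomial (Fin 3) k := Polynomial.aeval (X 2) f2 with hu
  set v : MvPolynomial (Fin 3) k := Polynomial.aeval (X 1) f1 with hv
  set w : MvPolynomial (Fin 3) k := Polynomial.aeval (X 0) f0 with hw
  set u1 : MvPolynomial (Fin 2) k := Polynomial.aeval (X 1) f2 with hu1
  set v1 : MvPolynomial (Fin 2) k := Polynomial.aeval (X 0) f1 with hv1
  set u2 : MvPolynomial (Fin 1) k := Polynomial.aeval (X 0) f2 with hu2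
  have ew : finSuccEquiv k 2 w = f0.map (algebraMap k (MvPolynomial (Fin 2) k)) := RegSeq_zero k 2 f0
  have ev : finSuccEquiv k 2 v = Polynomial.C v1 := RegSeq_succ k 2 0 f1
  have eu : finSuccEquiv k 2 u = Polynomial.C u1 := RegSeq_succ k 2 1 f2
  have ev1 : finSuccEquiv k 1 v1 = f1.map (algebraMap k (MvPolynomial (Fin 1) k)) := RegSeq_zero k 1 f1
  have eu1 : finSuccEquiv k 1 u1 = Polynomial.C u2 := RegSeq_succ k 1 0 f2
  have eu2 : finSuccEquiv k 0 u2 = f2.map (algebraMap k (MvPolynomial (Fin 0) k)) := RegSeq_zero k 0 f2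
  have n2 : u2 ≠ 0 := by
    intro h
    rw [h, map_zero] at eu2
    exact (m2.map (algebraMap k (MvPolynomial (Fin 0) k))).ne_zero eu2.symm
  have n1 : u1 ≠ 0 := by
    intro h
    rw [h, map_zero] at eu1
    exact n2 (Polynomial.C_eq_zero.1 eu1.symm)
  have n0 : u ≠ 0 := by
    intro h
    rw [h, map_zero] at eu
    exact n1 (Polynomial.C_eq_zero.1 eu.symm)
  -- level two
  have r1 : ∀ z : MvPolynomial (Fin 2) k, v1 * z ∈ Ideal.span {u1} → z ∈ Ideal.span {u1} := by
    intro z hz
    rw [RegSeq_tr (finSuccEquiv k 1).toRingEquiv] at hz ⊢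
    have e1 : (finSuccEquiv k 1).toRingEquiv u1 = Polynomial.C u2 := eu1
    have e2 : (finSuccEquiv k 1).toRingEquiv v1 = f1.map (algebraMap k (MvPolynomial (Fin 1) k)) := ev1
    rw [Set.image_singleton, e1] at hz ⊢
    rw [map_mul, e2] at hz
    have hs : Ideal.span {(Polynomial.C u2 : Polynomial (MvPolynomial (Fin 1) k))} =
        (Ideal.span {u2}).map (Polynomial.C : MvPolynomial (Fin 1) k →+* _) := by
      rw [Ideal.map_span, Set.image_singleton]
    rw [hs] at hz ⊢
    exact RegSeq_key _ _ (m1.map _) _ hz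
  refine ⟨u, v, w, h2, h1, h0, n0, ?_, ?_⟩
  · intro z hz
    rw [RegSeq_tr (finSuccEquiv k 2).toRingEquiv] at hz ⊢
    have e1 : (finSuccEquiv k 2).toRingEquiv u = Polynomial.C u1 := eu
    have e2 : (finSuccEquiv k 2).toRingEquiv v = Polynomial.C v1 := ev
    rw [Set.image_singleton, e1] at hz ⊢
    rw [map_mul, e2] at hz
    exact RegSeq_up r1 _ hz
  · intro z hz
    rw [RegSeq_tr (finSuccEquiv k 2).toRingEquiv] at hz ⊢
    have e1 : (finSuccEquiv k 2).toRingEquiv u = Polynomial.C u1 := eu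
    have e2 : (finSuccEquiv k 2).toRingEquiv v = Polynomial.C v1 := ev
    have e3 : (finSuccEquiv k 2).toRingEquiv w = f0.map (algebraMap k (MvPolynomial (Fin 2) k)) := ew
    rw [Set.image_pair, e1, e2] at hz ⊢
    rw [map_mul, e3] at hz
    have hs : Ideal.span {(Polynomial.C u1 : Polynomial (MvPolynomial (Fin 2) k)), Polynomial.C v1} =
        (Ideal.span {u1, v1}).map (Polynomial.C : MvPolynomial (Fin 2) k →+* _) := by
      rw [Ideal.map_span, Set.image_pair]
    rw [hs] at hz ⊢
    exact RegSeq_key _ _ (m0.map _) _ hz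

end STCI.LG
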