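import Pool.Agent.H24.LG.NotMax
import Pool.Agent.H24.LG.RegSeq
import Pool.Agent.H24.LG.Gen
import Pool.Agent.H24.LG.Apx
import Pool.Agent.H24.LG.LocA
import Pool.Agent.H24.LG.LocB
import Pool.Agent.H24.LG.LocC
import Pool.Agent.H41.UN.Dim
import Pool.Agent.H41.UN.MvP
import Pool.Agent.H41.UN.Main
import Pool.Agent.H41.UN.FS

/-!
# Local-to-global for curves in affine three-space
-/

set_option autoImplicit false

namespace STCI.LG

open MvPolynomial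

universe u

theorem ne_zero_of_lci {R : Type u} [CommRing R] [IsDomain R] [UniqueFactorizationMonoid R]
    (P m : Ideal R) [hP : P.IsPrime] [m.IsMaximal] (hPm : P ≤ m)
    (hnp : ∀ π : R, P ≠ Ideal.span {π}) (J : Ideal R) (hJ : J.radical = P) (f s : R) (hf : f ∈ J)
    (hs : s ∉ m) (h : ∀ x ∈ J, s * x ∈ Ideal.span {0, f}) : False := by
  classical
  have hJP : J ≤ P := by rw [← hJ]; exact Ideal.le_radical
  have h0 : ∀ x ∈ J, f ∣ s * x := by
    intro x hx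
    obtain ⟨α, β, hαβ⟩ := Ideal.mem_span_pair.1 (h x hx)
    exact ⟨β, by rw [← hαβ]; ring⟩
  have hs0 : s ≠ 0 := fun h => hs (h ▸ Ideal.zero_mem _)
  by_cases hf0 : f = 0
  · apply hnp 0
    rw [Ideal.span_singleton_eq_bot.2 rfl, eq_bot_iff]
    intro x hx
    rw [← hJ] at hx
    obtain ⟨n, hn⟩ := hx
    have h1 := h0 _ hn
    rw [hf0, zero_dvd_iff] at h1
    have h2 := (mul_eq_zero.1 h1).resolve_left hs0
    rcases Nat.eq_zero_or_pos n with h3 | h3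
    · rw [h3, pow_zero] at h2
      exact absurd h2 one_ne_zero
    · exact (pow_eq_zero_iff (Nat.pos_iff_ne_zero.1 h3)).1 h2
  · obtain ⟨l, hl, hlf⟩ := UniqueFactorizationMonoid.exists_prime_factors f hf0
    have h1 : l.prod ∈ P := by
      obtain ⟨c, hc⟩ := hlf.symm
      rw [← hc]
      exact Ideal.mul_mem_right _ _ (hJP hf)
    obtain ⟨π, hπl, hπ⟩ := (hP.multiset_prod_mem_iff_exists_mem l).1 h1
    have hπp := hl π hπl
    have hπf : π ∣ f := (Multiset.dvd_prod hπl).trans hlf.dvd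
    apply hnp π
    apply le_antisymm
    · intro x hx
      rw [← hJ] at hx
      obtain ⟨n, hn⟩ := hx
      rw [Ideal.mem_span_singleton]
      have h2 := hπf.trans (h0 _ hn)
      rcases hπp.dvd_or_dvd h2 with h3 | h3
      · exfalso
        obtain ⟨c, hc⟩ := h3
        exact hs (hc ▸ hPm (Ideal.mul_mem_right _ _ hπ))
      · exact hπp.dvd_of_dvd_pow h3
    · rw [Ideal.span_singleton_le_iff_mem]
      exact hπ

theorem loc_data {R : Type u} [CommRing R] [IsDomain R] [IsNoetherianRing R]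
    [UniqueFactorizationMonoid R] (P m : Ideal R) [P.IsPrime] [m.IsMaximal] (hPm : P < m)
    (hdim : OneDim P) (hnp : ∀ π : R, P ≠ Ideal.span {π})
    (x y d0 : R) (hx : x ∈ P) (hy : y ∈ P) (hd0 : d0 ∉ P)
    (hgen0 : ∀ p ∈ P, d0 * p ∈ Ideal.span {x, y})
    (u v w0 : R) (hum : u ∈ m) (hvm : v ∈ m) (hwm : w0 ∈ m) (hu : u ≠ 0)
    (hv : ∀ z, v * z ∈ Ideal.span {u} → z ∈ Ideal.span {u})
    (hw0 : ∀ z, w0 * z ∈ Ideal.span {u, v} → z ∈ Ideal.span {u, v})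
    (a b : R) (hcut : CutNear P m a b) (hs : GenSmooth P a) :
    ∃ (a' : R) (L : ℕ), a' ∈ P ∧ 1 ≤ L ∧ ∀ j : ℕ, 1 ≤ j → ∃ N : ℕ, ∀ g : R, g - a' ∈ m ^ N * P →
      ∃ f ∈ cont P g (L * j), ∃ s : R, s ∉ m ∧ ∀ x ∈ cont P g (L * j),
        s * x ∈ Ideal.span {g, f} := by
  obtain ⟨c, a', b', hc, hca, hcb, hrel⟩ := exists_coprime P m hnp a b hcut
  have hcP : c ∉ P := fun h => hc (hPm.le h)
  obtain ⟨haP, hbP, s0, hs0, hcut0⟩ := hcut
  have ha' : a' ∈ P := (‹P.IsPrime›.mem_or_mem (hca ▸ haP)).resolve_left hcP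
  have hb' : b' ∈ P := (‹P.IsPrime›.mem_or_mem (hcb ▸ hbP)).resolve_left hcP
  have hcut' : CutNear P m a' b' := by
    refine ⟨ha', hb', s0, hs0, fun x hx => ?_⟩
    refine Ideal.radical_mono (span_pair_le ?_ ?_) (hcut0 x hx)
    · rw [hca]
      exact Ideal.mul_mem_left _ _ (mem_pair_left _ _)
    · rw [hcb]
      exact Ideal.mul_mem_left _ _ (mem_pair_right _ _)
  have hs' : GenSmooth P a' := by
    intro t ht h
    apply hs t ht
    have h1 : t * a = c * (t * a') := by rw [hca]; ring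
    rw [h1]
    exact Ideal.mul_mem_left _ _ h
  obtain ⟨w, d, hw, hd, hgen⟩ := exists_w P x y d0 a' hx hy hd0 hgen0 ha' hs'
  have := isPrime_map P m hPm.le
  obtain ⟨L, hL, hLj⟩ := loc_bad P m hPm.le hdim u v w0 hum hvm hwm hu hv hw0 a' b' w d hrel hcut'
    hw hd hgen
  refine ⟨a', L, ha', hL, fun j hj => ?_⟩
  obtain ⟨b'', hb''⟩ := hLj j hj
  exact loc_stab P m hPm hdim hnp a' w d (L * j) (Nat.mul_pos hL hj) ha' hw hd hgen b'' hb''

theorem twoEq_prime (k : Type u) [Field k] (P : Ideal (MvPolynomial (Fin 3) k)) [P.IsPrime]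
    (h : ∀ m : Ideal (MvPolynomial (Fin 3) k), m.IsMaximal → P ≤ m →
      ∃ a b, CutNear P m a b ∧ GenSmooth P a) : TwoEq P := by
  classical
  rcases UN.principal_or_dimLEOne k P with ⟨π, hπ⟩ | hdim1
  · refine ⟨π, π, ?_⟩
    rw [Set.pair_eq_singleton, ← hπ]
    exact (‹P.IsPrime›).radical
  by_cases hnp : ∀ π, P ≠ Ideal.span {π}
  swap
  · push Not at hnp
    obtain ⟨π, hπ⟩ := hnp
    refine ⟨π, π, ?_⟩
    rw [Set.pair_eq_singleton, ← hπ]
    exact (‹P.IsPrime›).radical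
  have hdim : OneDim P := OneDim.of_dimensionLEOne hdim1
  by_cases hPmax : P.IsMaximal
  · exfalso
    obtain ⟨u, v, w, hu, hv, hw, hu0, hv1, hw1⟩ := exists_regSeq k P
    obtain ⟨a, b, hcut, hs⟩ := h P hPmax le_rfl
    obtain ⟨c, a', b', hc, hca, hcb, hrel⟩ := exists_coprime P P hnp a b hcut
    obtain ⟨haP, hbP, s0, hs0, hcut0⟩ := hcut
    have ha' : a' ∈ P := (‹P.IsPrime›.mem_or_mem (hca ▸ haP)).resolve_left hc
    have hb' : b' ∈ P := (‹P.IsPrime›.mem_or_mem (hcb ▸ hbP)).resolve_left hc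
    have hcut' : CutNear P P a' b' := by
      refine ⟨ha', hb', s0, hs0, fun x hx => ?_⟩
      refine Ideal.radical_mono (span_pair_le ?_ ?_) (hcut0 x hx)
      · rw [hca]
        exact Ideal.mul_mem_left _ _ (mem_pair_left _ _)
      · rw [hcb]
        exact Ideal.mul_mem_left _ _ (mem_pair_right _ _)
    have ha0 : a' ≠ 0 := by
      rintro rfl
      have h1 : IsUnit b' := hrel (dvd_zero b') dvd_rfl
      exact hPmax.ne_top (Ideal.eq_top_of_isUnit_mem _ hb' h1)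
    refine not_max P u v w a' b' hu hv hw (fun z hz => (mul_eq_zero.1 hz).resolve_left hu0) hv1 hw1
      (fun z hz => (mul_eq_zero.1 hz).resolve_left ha0) ?_ hcut'
    intro z hz
    rw [Ideal.mem_span_singleton] at hz ⊢
    exact hrel.dvd_of_dvd_mul_left hz
  obtain ⟨x, y, d, hx, hy, hd, hgen⟩ := exists_two_gen k P hPmax
  have hfin := finite_max P hdim d hd
  obtain ⟨S, hS⟩ : ∃ S : Finset (Ideal (MvPolynomial (Fin 3) k)),
      ∀ m, m ∈ S ↔ (m.IsMaximal ∧ P ≤ m ∧ d ∈ m) :=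
    ⟨hfin.toFinset, fun m => by rw [Set.Finite.mem_toFinset]; exact Iff.rfl⟩
  have hSlt : ∀ m ∈ S, P < m := fun m hm =>
    lt_of_le_of_ne ((hS m).1 hm).2.1 fun h => hd (h ▸ ((hS m).1 hm).2.2)
  have hdata : ∀ m : Ideal (MvPolynomial (Fin 3) k), ∃ (a' : MvPolynomial (Fin 3) k) (L : ℕ),
      m ∈ S → (a' ∈ P ∧ 1 ≤ L ∧ ∀ j : ℕ, 1 ≤ j → ∃ N : ℕ, ∀ g, g - a' ∈ m ^ N * P →
      ∃ f ∈ cont P g (L * j), ∃ s, s ∉ m ∧ ∀ x ∈ cont P g (L * j),
        s * x ∈ Ideal.span {g, f}) := by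
    intro m
    by_cases hm : m ∈ S
    · have hmax := ((hS m).1 hm).1
      obtain ⟨u, v, w, hu, hv, hw, hu0, hv1, hw1⟩ := exists_regSeq k m
      obtain ⟨a, b, hcut, hs⟩ := h m hmax (hSlt m hm).le
      obtain ⟨a', L, h1, h2, h3⟩ := loc_data P m (hSlt m hm) hdim hnp x y d hx hy hd hgen
        u v w hu hv hw hu0 hv1 hw1 a b hcut hs
      exact ⟨a', L, fun _ => ⟨h1, h2, h3⟩⟩
    · exact ⟨0, 0, fun h => absurd h hm⟩
  choose a L haL using hdata
  obtain ⟨T, hT⟩ : ∃ T : ℕ, ∀ m ∈ S, ∃ j, 1 ≤ j ∧ T = L m * j := by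
    refine ⟨∏ m ∈ S, L m, fun m hm => ?_⟩
    obtain ⟨j, hj⟩ := Finset.dvd_prod_of_mem L hm
    refine ⟨j, ?_, hj⟩
    have hpos : 0 < ∏ m ∈ S, L m := Finset.prod_pos fun i hi => (haL i hi).2.1
    rcases Nat.eq_zero_or_pos j with h0 | h0
    · rw [hj, h0, mul_zero] at hpos
      exact absurd hpos (lt_irrefl 0)
    · exact h0
  obtain ⟨T, hT1, hT⟩ : ∃ T : ℕ, 1 ≤ T ∧ ∀ m ∈ S, ∃ j, 1 ≤ j ∧ T = L m * j := by
    by_cases hne : S.Nonempty
    · obtain ⟨m, hm⟩ := hne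
      obtain ⟨j, hj, hjT⟩ := hT m hm
      exact ⟨T, by rw [hjT]; exact Nat.mul_pos (haL m hm).2.1 hj, hT⟩
    · rw [Finset.not_nonempty_iff_eq_empty] at hne
      exact ⟨1, le_rfl, fun m hm => by rw [hne] at hm; exact absurd hm (Finset.notMem_empty m)⟩
  have hN : ∀ m : Ideal (MvPolynomial (Fin 3) k), ∃ N : ℕ, m ∈ S → ∀ g, g - a m ∈ m ^ N * P →
      ∃ f ∈ cont P g T, ∃ s, s ∉ m ∧ ∀ x ∈ cont P g T, s * x ∈ Ideal.span {g, f} := by
    intro m
    by_cases hm : m ∈ S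
    · obtain ⟨j, hj, hjT⟩ := hT m hm
      obtain ⟨N, hN⟩ := (haL m hm).2.2 j hj
      rw [← hjT] at hN
      exact ⟨N, fun _ => hN⟩
    · exact ⟨0, fun h => absurd h hm⟩
  choose N hN using hN
  obtain ⟨g, hg, hgS, hgn⟩ := exists_g P hdim x y d hx hy hd hgen S (fun m hm => ((hS m).1 hm).1)
    hSlt (fun m h1 h2 h3 => (hS m).2 ⟨h1, h2, h3⟩) a (fun m hm => (haL m hm).1) (S.sup N)
  have hloc : ∀ m : Ideal (MvPolynomial (Fin 3) k), m.IsMaximal → P ≤ m →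
      ∃ f ∈ cont P g T, ∃ s, s ∉ m ∧ ∀ x ∈ cont P g T, s * x ∈ Ideal.span {g, f} := by
    intro m hm hPm
    by_cases hmS : m ∈ S
    · refine hN m hmS g (Ideal.mul_mono_left (Ideal.pow_le_pow_right ?_) (hgS m hmS))
      exact Finset.le_sup hmS
    · obtain ⟨α, β, hαβ, hdg⟩ := hgn m hm hPm hmS
      exact loc_good P m hPm hnp x y d g α β hx hy hg
        (fun h => hmS ((hS m).2 ⟨hm, hPm, h⟩)) hgen hαβ hdg T hT1
  have hrad := cont_radical (P := P) hg hT1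
  refine UN.twoEq_of_lci (UN.qs_mvPolynomial k 3) P hdim1 hnp (cont P g T) hrad g self_mem_cont ?_
    hloc
  rintro rfl
  obtain ⟨m, hm, hPm⟩ := P.exists_le_maximal (‹P.IsPrime›).ne_top
  obtain ⟨f, hf, s, hs, h1⟩ := hloc m hm hPm
  exact ne_zero_of_lci P m hPm hnp _ hrad f s hf hs h1

end STCI.LG
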