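import Pool.Agent.H24.LG.Exch

/-!
# A closed point is not cut out by two equations
-/

set_option autoImplicit false

namespace STCI.LG

universe u

theorem not_max {R : Type u} [CommRing R] [IsNoetherianRing R] (m : Ideal R)
    [m.IsMaximal] (u v w a b : R) (hum : u ∈ m) (hvm : v ∈ m) (hwm : w ∈ m)
    (hu : ∀ z, u * z = 0 → z = 0) (hv : ∀ z, v * z ∈ Ideal.span {u} → z ∈ Ideal.span {u})
    (hw : ∀ z, w * z ∈ Ideal.span {u, v} → z ∈ Ideal.span {u, v})
    (ha : ∀ z, a * z = 0 → z = 0) (hb : ∀ z, b * z ∈ Ideal.span {a} → z ∈ Ideal.span {a})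
    (hcut : CutNear m m a b) : False := by
  obtain ⟨ham, hbm, s0, hs0, hcut⟩ := hcut
  have hmin : m ∈ (Module.annihilator R (R ⧸ (Ideal.span {a, b} : Ideal R))).minimalPrimes := by
    rw [Ideal.annihilator_quotient]
    refine ⟨⟨inferInstance, span_pair_le ham hbm⟩, fun q hq hqm => ?_⟩
    intro x hx
    have h1 : s0 * x ∈ q := (hq.1.radical_le_iff.2 hq.2) (hcut x hx)
    exact (hq.1.mem_or_mem h1).resolve_left fun h => hs0 (hqm h)
  have hass := Module.associatedPrimes.minimalPrimes_annihilator_subset_associatedPrimes R _ hmin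
  rw [AssociatedPrimes.mem_iff, isAssociatedPrime_iff] at hass
  obtain ⟨-, y, hy⟩ := hass
  obtain ⟨y, rfl⟩ := Ideal.Quotient.mk_surjective y
  have hmem : ∀ t : R, t ∈ m ↔ t * y ∈ (Ideal.span {a, b} : Ideal R) := by
    intro t
    rw [hy, Submodule.mem_colon_singleton, Submodule.mem_bot]
    rw [← Ideal.Quotient.eq_zero_iff_mem, map_mul]
    rfl
  have h1 : y ∈ (Ideal.span {a, b} : Ideal R) :=
    exch u v w a b y hu hv hw ha hb ((hmem u).1 hum) ((hmem v).1 hvm) ((hmem w).1 hwm)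
  have h2 : (1 : R) ∈ m := (hmem 1).2 (by rwa [one_mul])
  exact (Ideal.ne_top_iff_one m).1 (Ideal.IsMaximal.ne_top ‹_›) h2

end STCI.LG
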