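import Pool.Agent.H24.LG.Defs

/-!
# Row StabB (project MP_204867_LG)

`A` is a noetherian local ring with maximal ideal `m`, `P` a prime ideal of `A` such that the only prime ideal strictly containing `P` is
`m` (`OneDim P` gives that: a maximal ideal of a local ring is `m`).

`pow_le_sup`: for `d ∉ P` there is `n` with `m^n ≤ P + (d)`: the radical of `P ⊔ (d)` is `⊤` or `m` (`Ideal.radical_eq_sInf`: every
prime containing `P ⊔ (d)` strictly contains `P`), so contains `m`; `Ideal.exists_pow_le_of_le_radical_of_fg` or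
`Ideal.exists_radical_pow_le_of_fg`.

`approx`: for `D ∉ P` and all `M, L` there is `N` with `m^N P ≤ (D) m^M P + P^L`. Proof. Let `m^n ≤ P + (D)`. Induction on `L`: for
`L ≤ 1` take `N = 0` (`P ≤ P^L`). Step: from `m^N P ≤ (D) m^M P + P^L`, `1 ≤ L`:
`m^(n + M + N) P ≤ (D) m^M P + m^(n + M) P^L` and
`m^(n+M) P^L ≤ m^M (P + (D)) P^L ≤ P^(L+1) + (D) m^M P^L ≤ P^(L+1) + (D) m^M P`.
-/

set_option autoImplicit false

namespace STCI.LG

open IsLocalRing

universe u

theorem pow_le_sup {A : Type u} [CommRing A] [IsLocalRing A] [IsNoetherianRing A] (P : Ideal A)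
    [P.IsPrime] (hdim : OneDim P) (d : A) (hd : d ∉ P) :
    ∃ n : ℕ, maximalIdeal A ^ n ≤ P ⊔ Ideal.span {d} := by
  apply Ideal.exists_pow_le_of_le_radical_of_fg _ (IsNoetherian.noetherian (maximalIdeal A))
  rw [Ideal.radical_eq_sInf]
  apply le_sInf
  rintro J ⟨hJ1, hJ2⟩
  have hdJ : d ∈ J := hJ1 (Ideal.mem_sup_right (Ideal.mem_span_singleton_self d))
  have hPJ : P < J := lt_of_le_of_ne (le_sup_left.trans hJ1) (fun h => hd (h ▸ hdJ))
  have hmax : J.IsMaximal := hdim J hJ2 hPJ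
  rw [IsLocalRing.eq_maximalIdeal hmax]

theorem approx_aux {A : Type u} [CommRing A] [IsLocalRing A] [IsNoetherianRing A] (P : Ideal A)
    [P.IsPrime] (hdim : OneDim P) (D : A) (hD : D ∉ P) (M L : ℕ) :
    ∃ N : ℕ, maximalIdeal A ^ N * P ≤ Ideal.span {D} * (maximalIdeal A ^ M * P) ⊔ P ^ (L + 1) := by
  obtain ⟨n, hn⟩ := pow_le_sup P hdim D hD
  induction L with
  | zero =>
    refine ⟨0, ?_⟩
    rw [zero_add, pow_one]
    exact Ideal.mul_le_right.trans le_sup_right
  | succ L ih =>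
    obtain ⟨N, hN⟩ := ih
    refine ⟨n + M + N, ?_⟩
    have h1 : maximalIdeal A ^ (n + M) * (Ideal.span {D} * (maximalIdeal A ^ M * P)) ≤
        Ideal.span {D} * (maximalIdeal A ^ M * P) := Ideal.mul_le_right
    have h2 : maximalIdeal A ^ M * (P * P ^ (L + 1)) ≤ P ^ (L + 1 + 1) := by
      rw [pow_succ' P (L + 1)]
      exact Ideal.mul_le_right
    have h3 : maximalIdeal A ^ M * (Ideal.span {D} * P ^ (L + 1)) ≤
        Ideal.span {D} * (maximalIdeal A ^ M * P) := by
      rw [mul_left_comm]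
      exact Ideal.mul_mono_right (Ideal.mul_mono_right (Ideal.pow_le_self (by omega)))
    have h4 : maximalIdeal A ^ (n + M) * P ^ (L + 1) ≤
        Ideal.span {D} * (maximalIdeal A ^ M * P) ⊔ P ^ (L + 1 + 1) := by
      calc maximalIdeal A ^ (n + M) * P ^ (L + 1)
          = maximalIdeal A ^ M * (maximalIdeal A ^ n * P ^ (L + 1)) := by
            rw [← mul_assoc, ← pow_add, add_comm M n]
        _ ≤ maximalIdeal A ^ M * ((P ⊔ Ideal.span {D}) * P ^ (L + 1)) :=
            Ideal.mul_mono_right (Ideal.mul_mono_left hn)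
        _ = maximalIdeal A ^ M * (P * P ^ (L + 1)) ⊔ maximalIdeal A ^ M * (Ideal.span {D} * P ^ (L + 1)) := by
            rw [Ideal.sup_mul, Ideal.mul_sup]
        _ ≤ Ideal.span {D} * (maximalIdeal A ^ M * P) ⊔ P ^ (L + 1 + 1) :=
            sup_le (h2.trans le_sup_right) (h3.trans le_sup_left)
    calc maximalIdeal A ^ (n + M + N) * P = maximalIdeal A ^ (n + M) * (maximalIdeal A ^ N * P) := by
          rw [pow_add, mul_assoc]
      _ ≤ maximalIdeal A ^ (n + M) * (Ideal.span {D} * (maximalIdeal A ^ M * P) ⊔ P ^ (L + 1)) :=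
          Ideal.mul_mono_right hN
      _ = maximalIdeal A ^ (n + M) * (Ideal.span {D} * (maximalIdeal A ^ M * P)) ⊔
          maximalIdeal A ^ (n + M) * P ^ (L + 1) := by rw [Ideal.mul_sup]
      _ ≤ Ideal.span {D} * (maximalIdeal A ^ M * P) ⊔ P ^ (L + 1 + 1) :=
          sup_le (h1.trans le_sup_left) h4

theorem approx {A : Type u} [CommRing A] [IsLocalRing A] [IsNoetherianRing A] (P : Ideal A)
    [P.IsPrime] (hdim : OneDim P) (D : A) (hD : D ∉ P) (M L : ℕ) :
    ∃ N : ℕ, maximalIdeal A ^ N * P ≤ Ideal.span {D} * (maximalIdeal A ^ M * P) ⊔ P ^ L := by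
  obtain ⟨N, hN⟩ := approx_aux P hdim D hD M L
  exact ⟨N, hN.trans (sup_le_sup_left (Ideal.pow_le_pow_right (Nat.le_succ L)) _)⟩

end STCI.LG
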