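import Pool.Agent.H24.LG.StabA
import Pool.Agent.H24.LG.StabB

/-!
# Row Stab: stability of two-generated contractions (project MP_204867_LG)

`A` noetherian local, `P ≠ m` prime with `OneDim P`, `d P ≤ (a, w)`, `cont P a L = (a, b)`. For `g` close to `a`, `cont P g L` is generated
by `g` and one more element.

Proof. (1) By `pow_le_sup` take `n` with `m^n ≤ P + (d)`. If `g - a ∈ m^(n+1) P` then `g - a ∈ m (P + (d)) P ≤ P^2 + m d P`, so
`X := d P + (g, w) + P^2` satisfies `X ≤ ((g, w) + P^2) + m X`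
(`d p ∈ (a, w)`, `a = g - (g - a)`), so by Nakayama (`Submodule.le_of_le_smul_of_le_jacobson_bot`) `d P ≤ (g, w) + P^2`. So by `hch`
`Chain P g w`, and by `uniform` `D0 = d^(L L)` satisfies `D0 cont P g L ≤ (g) + P^L`.
(2) `b ∈ cont P a L`: `s b ∈ (a) + P^L` with `s ∉ P`. Put `D = s D0 ∉ P`. So `D b = u a + π`, `π ∈ P^L`, and
`D cont P g L ≤ (g) + P^L` for all such `g`.
(3) Take `τ ∈ m`, `τ ∉ P`, and `Q = (a, b, τ)`. `Q ≥ P^L + (τ)`, so (by `pow_le_sup` for `τ`, and
`(P + (τ))^(L) ≤ P^L + (τ)`) `m^(M0) ≤ Q` for some `M0`; put `M = M0 + 1`, so `m^M ≤ m Q` and `m^M ≤ Q`.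
(4) By `approx` take `N` with `m^N P ≤ D m^M P + P^L`; and take `N ≥ n + 1`, `N ≥ M` (enlarging `N` is harmless: `Ideal.pow_le_pow_right`).
(5) Let `g - a ∈ m^N P`: `g - a = D η + ζ`, `η ∈ m^M P`, `ζ ∈ P^L`. Put `f = b + u η`. `D f = u a + π + u (g - a - ζ) = u g + (π - u ζ)`,
so `f ∈ cont P g L`. `g - a ∈ m^M ≤ m Q` and `f - b = u η ∈ m^M ≤ m Q`, so `Q ≤ (g, f, τ) + m Q`, so `Q ≤ (g, f, τ)` (Nakayama).
(6) For `x ∈ cont P g L`: `D x = u' g + π'`, `π' ∈ P^L`; `D (x - u' η) = u' g + π' - u' (g - a - ζ) = u' a + (π' + u' ζ) ∈ (a) + P^L`, so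
`x - u' η ∈ cont P a L = (a, b) ≤ Q`; `η ∈ m^M ≤ Q`; so `x ∈ Q ≤ (g, f, τ)`.
(7) `x = α g + β f + γ τ`; `τ γ ∈ cont P g L`, `τ ∉ P`, so `γ ∈ cont P g L` (`mem_cont_of_mul`). So
`cont P g L ≤ (g, f) + m cont P g L`, and `cont P g L ≤ (g, f)` by Nakayama; `≥` is clear.
-/

set_option autoImplicit false

namespace STCI.LG

open IsLocalRing

universe u

theorem Stab_sup_pow {A : Type u} [CommRing A] (P T : Ideal A) (k : ℕ) :
    (P ⊔ T) ^ (k + 1) ≤ P ^ (k + 1) ⊔ T := by
  induction k with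
  | zero => simp
  | succ k ih =>
    rw [pow_succ (P ⊔ T) (k + 1)]
    refine (Ideal.mul_mono_left ih).trans ?_
    rw [Ideal.sup_mul, Ideal.mul_sup]
    refine sup_le (sup_le ?_ ?_) ?_
    · rw [pow_succ P (k + 1)]
      exact le_sup_left
    · exact Ideal.mul_le_right.trans le_sup_right
    · exact Ideal.mul_le_left.trans le_sup_right

theorem Stab_nak {A : Type u} [CommRing A] [IsLocalRing A] [IsNoetherianRing A] (N N' : Ideal A)
    (h : N ≤ N' ⊔ maximalIdeal A * N) : N ≤ N' := by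
  refine Submodule.le_of_le_smul_of_le_jacobson_bot (I := maximalIdeal A) (IsNoetherian.noetherian N)
    ?_ ?_
  · exact IsLocalRing.maximalIdeal_le_jacobson ⊥
  · rw [smul_eq_mul]
    exact h

/-- step (1) -/
theorem Stab_step {A : Type u} [CommRing A] [IsLocalRing A] [IsNoetherianRing A] (P : Ideal A)
    (a w d g : A) (n : ℕ) (hn : maximalIdeal A ^ n ≤ P ⊔ Ideal.span {d})
    (hgen : ∀ p ∈ P, d * p ∈ Ideal.span {a, w})
    (hga : g - a ∈ maximalIdeal A ^ (n + 1) * P) :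
    ∀ p ∈ P, d * p ∈ Ideal.span {g, w} ⊔ P ^ 2 := by
  set Y : Ideal A := Ideal.span {g, w} ⊔ P ^ 2 with hY
  set X : Ideal A := Ideal.span {d} * P ⊔ Y with hX
  have h1 : maximalIdeal A ^ (n + 1) * P ≤ P ^ 2 ⊔ maximalIdeal A * (Ideal.span {d} * P) := by
    rw [pow_succ', mul_assoc]
    have h2 : maximalIdeal A * (maximalIdeal A ^ n * P)
        ≤ maximalIdeal A * ((P ⊔ Ideal.span {d}) * P) :=
      Ideal.mul_mono_right (Ideal.mul_mono_left hn)
    refine h2.trans ?_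
    rw [Ideal.sup_mul, Ideal.mul_sup]
    refine sup_le_sup_right ?_ _
    rw [pow_two]
    exact Ideal.mul_le_right
  have h3 : g - a ∈ Y ⊔ maximalIdeal A * X := by
    have h4 : P ^ 2 ⊔ maximalIdeal A * (Ideal.span {d} * P) ≤ Y ⊔ maximalIdeal A * X := by
      refine sup_le ?_ ?_
      · exact le_sup_right.trans le_sup_left
      · exact (Ideal.mul_mono_right le_sup_left).trans le_sup_right
    exact h4 (h1 hga)
  have h5 : a ∈ Y ⊔ maximalIdeal A * X := by
    have h6 : a = g - (g - a) := by ring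
    rw [h6]
    refine Ideal.sub_mem _ ?_ h3
    refine Ideal.mem_sup_left (Ideal.mem_sup_left ?_)
    exact Ideal.subset_span (by simp)
  have h7 : w ∈ Y ⊔ maximalIdeal A * X := by
    refine Ideal.mem_sup_left (Ideal.mem_sup_left ?_)
    exact Ideal.subset_span (by simp)
  have h8 : Ideal.span {a, w} ≤ Y ⊔ maximalIdeal A * X := by
    rw [Ideal.span_le]
    rintro x hx
    rcases hx with rfl | hx
    · exact h5
    · rw [Set.mem_singleton_iff.1 hx]
      exact h7
  have h9 : X ≤ Y ⊔ maximalIdeal A * X := by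
    refine sup_le ?_ le_sup_left
    intro x hx
    obtain ⟨p, hp, rfl⟩ := Ideal.mem_span_singleton_mul.1 hx
    exact h8 (hgen p hp)
  have h10 : X ≤ Y := Stab_nak X Y h9
  intro p hp
  refine h10 (Ideal.mem_sup_left ?_)
  exact Ideal.mul_mem_mul (Ideal.mem_span_singleton_self d) hp

/-- steps (5)-(7) -/
theorem Stab_main {A : Type u} [CommRing A] [IsLocalRing A] [IsNoetherianRing A] (P : Ideal A)
    [P.IsPrime] (a b D u p τ g η ζ : A) (L M : ℕ)
    (hD : D ∉ P) (hτm : τ ∈ maximalIdeal A) (hτ : τ ∉ P)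
    (hab : cont P a L = Ideal.span {a, b})
    (hp : p ∈ P ^ L) (hDb : D * b = u * a + p)
    (hM : maximalIdeal A ^ M ≤ maximalIdeal A * (Ideal.span {a, b} ⊔ Ideal.span {τ}))
    (hga : g - a ∈ maximalIdeal A ^ M)
    (hη : η ∈ maximalIdeal A ^ M) (hζ : ζ ∈ P ^ L) (hgaD : g - a = D * η + ζ)
    (hcont : ∀ x ∈ cont P g L, D * x ∈ Ideal.span {g} ⊔ P ^ L) :
    cont P g L = Ideal.span {g, b + u * η} := by
  set f : A := b + u * η with hf
  have hfc : f ∈ cont P g L := by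
    refine ⟨D, hD, ?_⟩
    have h1 : D * f = u * g + (p - u * ζ) := by
      have h2 : D * f = D * b + u * (D * η) := by rw [hf]; ring
      have h3 : D * η = g - a - ζ := by rw [hgaD]; ring
      rw [h2, hDb, h3]
      ring
    rw [h1]
    refine Ideal.add_mem _ (Ideal.mem_sup_left ?_) (Ideal.mem_sup_right ?_)
    · exact Ideal.mul_mem_left _ _ (Ideal.mem_span_singleton_self g)
    · exact Ideal.sub_mem _ hp (Ideal.mul_mem_left _ _ hζ)
  set Q : Ideal A := Ideal.span {a, b} ⊔ Ideal.span {τ} with hQ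
  set Q' : Ideal A := Ideal.span {g, f} ⊔ Ideal.span {τ} with hQ'
  have hle : Q ≤ Q' := by
    refine Stab_nak Q Q' ?_
    refine sup_le ?_ ?_
    · rw [Ideal.span_le]
      rintro x hx
      rcases hx with rfl | hx
      · have h6 : x = g - (g - x) := by ring
        rw [h6]
        refine Ideal.sub_mem _ (Ideal.mem_sup_left (Ideal.mem_sup_left ?_))
          (Ideal.mem_sup_right (hM hga))
        exact Ideal.subset_span (by simp)
      · rw [Set.mem_singleton_iff.1 hx]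
        have h6 : b = f - u * η := by rw [hf]; ring
        rw [h6]
        refine Ideal.sub_mem _ (Ideal.mem_sup_left (Ideal.mem_sup_left ?_))
          (Ideal.mem_sup_right (Ideal.mul_mem_left _ _ (hM hη)))
        exact Ideal.subset_span (by simp)
    · exact le_sup_right.trans le_sup_left
  have hηQ : η ∈ Q := Ideal.mul_le_right (hM hη)
  have hxQ : ∀ x ∈ cont P g L, x ∈ Q := by
    intro x hx
    obtain ⟨y, hy, q, hq, hyq⟩ := Submodule.mem_sup.1 (hcont x hx)
    obtain ⟨v, rfl⟩ := Ideal.mem_span_singleton'.1 hy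
    have h1 : x - v * η ∈ cont P a L := by
      refine ⟨D, hD, ?_⟩
      have h2 : D * (x - v * η) = v * a + (q + v * ζ) := by
        have h3 : D * η = g - a - ζ := by rw [hgaD]; ring
        have h4 : D * (x - v * η) = D * x - v * (D * η) := by ring
        rw [h4, ← hyq, h3]
        ring
      rw [h2]
      refine Ideal.add_mem _ (Ideal.mem_sup_left ?_) (Ideal.mem_sup_right ?_)
      · exact Ideal.mul_mem_left _ _ (Ideal.mem_span_singleton_self a)
      · exact Ideal.add_mem _ hq (Ideal.mul_mem_left _ _ hζ)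
    rw [hab] at h1
    have h5 : x = (x - v * η) + v * η := by ring
    rw [h5]
    exact Ideal.add_mem _ (Ideal.mem_sup_left h1) (Ideal.mul_mem_left _ _ hηQ)
  have hgf : Ideal.span {g, f} ≤ cont P g L := by
    rw [Ideal.span_le]
    rintro x hx
    rcases hx with rfl | hx
    · exact self_mem_cont
    · rw [Set.mem_singleton_iff.1 hx]
      exact hfc
  refine le_antisymm (Stab_nak _ _ ?_) hgf
  intro x hx
  obtain ⟨y, hy, z, hz, hyz⟩ := Submodule.mem_sup.1 (hle (hxQ x hx))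
  obtain ⟨c, rfl⟩ := Ideal.mem_span_singleton'.1 hz
  have h1 : τ * c ∈ cont P g L := by
    have h2 : τ * c = x - y := by rw [← hyz]; ring
    rw [h2]
    exact Ideal.sub_mem _ hx (hgf hy)
  have h3 : c ∈ cont P g L := mem_cont_of_mul hτ h1
  rw [← hyz]
  refine Ideal.add_mem _ (Ideal.mem_sup_left hy) (Ideal.mem_sup_right ?_)
  rw [mul_comm c τ]
  exact Ideal.mul_mem_mul hτm h3

theorem stability {A : Type u} [CommRing A] [IsLocalRing A] [IsNoetherianRing A] (P : Ideal A)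
    [P.IsPrime] (hdim : OneDim P) (hPm : P ≠ maximalIdeal A) (a b w d : A) (L : ℕ) (hL : 1 ≤ L)
    (ha : a ∈ P) (hw : w ∈ P) (hd : d ∉ P) (hgen : ∀ p ∈ P, d * p ∈ Ideal.span {a, w})
    (hab : cont P a L = Ideal.span {a, b}) :
    ∃ N : ℕ, ∀ g : A, g - a ∈ maximalIdeal A ^ N * P →
      ((∀ p ∈ P, d * p ∈ Ideal.span {g, w} ⊔ P ^ 2) → Chain P g w) →
      ∃ f : A, cont P g L = Ideal.span {g, f} := by
  obtain ⟨n, hn⟩ := pow_le_sup P hdim d hd
  have hPle : P ≤ maximalIdeal A := IsLocalRing.le_maximalIdeal (Ideal.IsPrime.ne_top inferInstance)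
  obtain ⟨τ, hτm, hτ⟩ : ∃ τ, τ ∈ maximalIdeal A ∧ τ ∉ P := by
    by_contra hcon
    push Not at hcon
    exact hPm (le_antisymm hPle hcon)
  obtain ⟨n', hn'⟩ := pow_le_sup P hdim τ hτ
  have hbc : b ∈ cont P a L := by
    rw [hab]
    exact Ideal.subset_span (by simp)
  obtain ⟨s, hs, hsb⟩ := hbc
  have hD0 : d ^ (L * L) ∉ P := fun h => hd (Ideal.IsPrime.mem_of_pow_mem inferInstance _ h)
  have hD : s * d ^ (L * L) ∉ P := fun h =>
    (Ideal.IsPrime.mem_or_mem inferInstance h).elim hs hD0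
  obtain ⟨y, hy, q, hq, hyq⟩ := Submodule.mem_sup.1 hsb
  obtain ⟨v, rfl⟩ := Ideal.mem_span_singleton'.1 hy
  have hM0 : maximalIdeal A ^ (n' * L) ≤ Ideal.span {a, b} ⊔ Ideal.span {τ} := by
    obtain ⟨k, rfl⟩ : ∃ k, L = k + 1 := ⟨L - 1, by omega⟩
    rw [pow_mul]
    refine (Ideal.pow_right_mono hn' _).trans ((Stab_sup_pow _ _ k).trans ?_)
    refine sup_le_sup_right ?_ _
    rw [← hab]
    exact pow_le_cont
  have hM : maximalIdeal A ^ (n' * L + 1)
      ≤ maximalIdeal A * (Ideal.span {a, b} ⊔ Ideal.span {τ}) := by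
    rw [pow_succ']
    exact Ideal.mul_mono_right hM0
  obtain ⟨N, hN⟩ := approx P hdim (s * d ^ (L * L)) hD (n' * L + 1) L
  refine ⟨N + (n + 1) + (n' * L + 1), fun g hga hch => ?_⟩
  have hga1 : g - a ∈ maximalIdeal A ^ (n + 1) * P :=
    Ideal.mul_mono_left (Ideal.pow_le_pow_right (by omega)) hga
  have hga2 : g - a ∈ maximalIdeal A ^ N * P :=
    Ideal.mul_mono_left (Ideal.pow_le_pow_right (by omega)) hga
  have hga3 : g - a ∈ maximalIdeal A ^ (n' * L + 1) :=
    Ideal.pow_le_pow_right (by omega) (Ideal.mul_le_left hga)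
  have hgP : g ∈ P := by
    have h1 : g = a + (g - a) := by ring
    rw [h1]
    exact Ideal.add_mem _ ha (Ideal.mul_le_right hga)
  have hgen' := Stab_step P a w d g n hn hgen hga1
  have hch' := hch hgen'
  have hcont : ∀ x ∈ cont P g L, s * d ^ (L * L) * x ∈ Ideal.span {g} ⊔ P ^ L := by
    intro x hx
    rw [mul_assoc]
    exact Ideal.mul_mem_left _ _ (uniform P g w d L hgP hw hgen' hch' x hx)
  obtain ⟨z, hz, ζ, hζ, hzζ⟩ := Submodule.mem_sup.1 (hN hga2)
  obtain ⟨η, hη, rfl⟩ := Ideal.mem_span_singleton_mul.1 hz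
  refine ⟨b + (d ^ (L * L) * v) * η, ?_⟩
  refine Stab_main P a b (s * d ^ (L * L)) (d ^ (L * L) * v) (d ^ (L * L) * q) τ g η ζ L
    (n' * L + 1) hD hτm hτ hab (Ideal.mul_mem_left _ _ hq) ?_ hM hga3 (Ideal.mul_le_left hη) hζ
    hzζ.symm hcont
  have h2 : s * d ^ (L * L) * b = d ^ (L * L) * (s * b) := by ring
  rw [h2, ← hyq]
  ring

end STCI.LG
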