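import Pool.Agent.H24.LG.Defs

/-!
# Row StabA (project MP_204867_LG)

`uniform`: a denominator which does not depend on `x`. Proof. Claim, by induction on `i ≤ L`: for all `x ∈ cont P g L`,
`d^(i (i - 1) / 2) x ∈ (g) + P^i` (or: there is `k_i` depending only on `i` such that `d^(k_i) x ∈ (g) + P^i`; take `k_i = i * i` and pad
with extra factors `d`: `(i+1)^2 ≥ i^2 + i`). `i = 0` is trivial (`P^0 = ⊤`). Step `i → i + 1`, `i < L`: `y = d^(k_i) x = c g + p`,
`p ∈ P^i`. As `d P ≤ (g, w) + P^2`: `d^i P^i ≤ ((g, w) + P^2)^i ≤ (g) + (w^i) + P^(i+1)` (expand: a product of `i` factors from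
`(g, w) ⊔ P^2`, all in `P`: either one factor is in `(g)`, or one is in `P^2` and the product is in `P^(i+1)`, or it is a multiple of
`w^i`; by induction on `i`). So `d^i p = c' g + r w^i + p''` with `p'' ∈ P^(i+1)` and `d^i y = c'' g + r w^i + p''`. `x ∈ cont P g L`:
`s x ∈ (g) + P^L ≤ (g) + P^(i+1)`, `s ∉ P`, so `s r w^i ∈ (g) + P^(i+1)`; by `Chain` `s r ∈ P` (contrapositive of
`Chain P g w i (s r)`), so `r ∈ P`, `r w^i ∈ P^(i+1)` and `d^i y ∈ (g) + P^(i+1)`.
-/

set_option autoImplicit false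

namespace STCI.LG

universe u

theorem StabA_pow {R : Type u} [CommRing R] (P : Ideal R) (g w d : R) (hw : w ∈ P)
    (hgen : ∀ p ∈ P, d * p ∈ Ideal.span {g, w} ⊔ P ^ 2) (i : ℕ) :
    ∀ p ∈ P ^ i, ∃ c r q : R, q ∈ P ^ (i + 1) ∧ d ^ i * p = c * g + r * w ^ i + q := by
  induction i with
  | zero =>
    intro p _
    exact ⟨0, p, 0, Ideal.zero_mem _, by ring⟩
  | succ i ih =>
    intro p hp
    rw [pow_succ] at hp
    refine Submodule.mul_induction_on hp ?_ ?_
    · intro a ha b hb
      obtain ⟨c, r, q, hq, h1⟩ := ih a ha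
      obtain ⟨s, hs, t, ht, h2⟩ := Submodule.mem_sup.1 (hgen b hb)
      obtain ⟨e, f, h3⟩ := Ideal.mem_span_pair.1 hs
      have hdb : d * b = e * g + f * w + t := by rw [← h2, ← h3]
      refine ⟨c * (d * b) + e * (r * w ^ i + q), r * f, r * (w ^ i * t) + f * (q * w) + q * t, ?_, ?_⟩
      · have hwi : w ^ i ∈ P ^ i := Ideal.pow_mem_pow hw i
        have m1 : w ^ i * t ∈ P ^ (i + 1 + 1) := by
          have := Ideal.mul_mem_mul hwi ht
          rw [← pow_add] at this
          exact this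
        have m2 : q * w ∈ P ^ (i + 1 + 1) := by
          have := Ideal.mul_mem_mul hq hw
          rw [← pow_succ] at this
          exact this
        have m3 : q * t ∈ P ^ (i + 1 + 1) := by
          have := Ideal.mul_mem_mul hq ht
          rw [← pow_add] at this
          exact Ideal.pow_le_pow_right (by omega) this
        exact Ideal.add_mem _ (Ideal.add_mem _ (Ideal.mul_mem_left _ _ m1) (Ideal.mul_mem_left _ _ m2)) m3
      · have : d ^ (i + 1) * (a * b) = (d ^ i * a) * (d * b) := by ring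
        rw [this, h1]
        have h4 : (c * g + r * w ^ i + q) * (d * b) = c * g * (d * b) + (r * w ^ i + q) * (d * b) := by ring
        rw [h4]
        nth_rewrite 2 [hdb]
        ring
    · rintro x y ⟨c, r, q, hq, h1⟩ ⟨c', r', q', hq', h1'⟩
      refine ⟨c + c', r + r', q + q', Ideal.add_mem _ hq hq', ?_⟩
      rw [mul_add, h1, h1']
      ring

theorem uniform {R : Type u} [CommRing R] (P : Ideal R) [P.IsPrime] (g w d : R) (L : ℕ)
    (hg : g ∈ P) (hw : w ∈ P) (hgen : ∀ p ∈ P, d * p ∈ Ideal.span {g, w} ⊔ P ^ 2)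
    (hch : Chain P g w) (x : R) (hx : x ∈ cont P g L) :
    d ^ (L * L) * x ∈ Ideal.span {g} ⊔ P ^ L := by
  have hclaim : ∀ i : ℕ, i ≤ L → d ^ (i * i) * x ∈ Ideal.span {g} ⊔ P ^ i := by
    intro i
    induction i with
    | zero =>
      intro _
      have ht : x ∈ P ^ 0 := by
        rw [pow_zero P, Ideal.one_eq_top]
        exact Submodule.mem_top
      simpa using Ideal.mem_sup_right (I := Ideal.span {g}) ht
    | succ i ih =>
      intro hi
      obtain ⟨a, ha, p, hp, h1⟩ := Submodule.mem_sup.1 (ih (by omega))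
      obtain ⟨c0, rfl⟩ := Ideal.mem_span_singleton'.1 ha
      obtain ⟨c, r, q, hq, h2⟩ := StabA_pow P g w d hw hgen i p hp
      have h3 : d ^ (i * i + i) * x = (d ^ i * c0 + c) * g + r * w ^ i + q := by
        rw [pow_add, mul_comm (d ^ (i * i)) (d ^ i), mul_assoc, ← h1, mul_add, h2]
        ring
      obtain ⟨s, hs, h4⟩ := hx
      have h50 : P ^ L ≤ P ^ (i + 1) := Ideal.pow_le_pow_right hi
      have h51 : Ideal.span {g} ⊔ P ^ L ≤ Ideal.span {g} ⊔ P ^ (i + 1) := sup_le_sup_left h50 _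
      have h5 : s * x ∈ Ideal.span {g} ⊔ P ^ (i + 1) := h51 h4
      have hgm : ∀ z : R, z * g ∈ Ideal.span {g} ⊔ P ^ (i + 1) := fun z =>
        Ideal.mem_sup_left (Ideal.mem_span_singleton'.2 ⟨z, rfl⟩)
      have h6 : s * r * w ^ i ∈ Ideal.span {g} ⊔ P ^ (i + 1) := by
        have e : s * r * w ^ i = d ^ (i * i + i) * (s * x) - (s * (d ^ i * c0 + c)) * g - s * q := by
          have : d ^ (i * i + i) * (s * x) = s * (d ^ (i * i + i) * x) := by ring
          rw [this, h3]
          ring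
        rw [e]
        exact Ideal.sub_mem _ (Ideal.sub_mem _ (Ideal.mul_mem_left _ _ h5) (hgm _))
          (Ideal.mem_sup_right (Ideal.mul_mem_left _ _ hq))
      have h7 : s * r ∈ P := by
        by_contra hn
        exact hch i (s * r) hn h6
      have h8 : r ∈ P := (‹P.IsPrime›.mem_or_mem h7).resolve_left hs
      have h9 : r * w ^ i ∈ P ^ (i + 1) := by
        have := Ideal.mul_mem_mul h8 (Ideal.pow_mem_pow hw i)
        rw [← pow_succ'] at this
        exact this
      have h10 : d ^ (i * i + i) * x ∈ Ideal.span {g} ⊔ P ^ (i + 1) := by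
        rw [h3]
        exact Ideal.add_mem _ (Ideal.add_mem _ (hgm _) (Ideal.mem_sup_right h9)) (Ideal.mem_sup_right hq)
      have h11 : d ^ ((i + 1) * (i + 1)) * x = d ^ (i + 1) * (d ^ (i * i + i) * x) := by ring
      rw [h11]
      exact Ideal.mul_mem_left _ _ h10
  exact hclaim L le_rfl

end STCI.LG
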