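import Pool.Agent.H24.LG.Exch

/-!
# Row Unmix: `(a, b)` is `P`-primary near `m` (project MP_204867_LG)

Proof. Let `A = {t : t x ∈ (a, b)}` (an ideal: `Submodule.colon` or the annihilator of the class of `x` in `R ⧸ (a, b)`) and suppose
`A ≤ m`. Let `q` be a minimal prime over `A` with `q ≤ m` (`Ideal.exists_minimalPrimes_le`). `q` contains `a`, `b`, `s`. For `y ∈ P`:
`s0 y` is in the radical of `(a, b)`, so in `q`, and `s0 ∉ q` (`q ≤ m`), so `y ∈ q`. So `P ≤ q`, `s ∈ q`, `s ∉ P`: `P < q`, so `q` is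
maximal, `q = m`. So `m` is a minimal prime over the annihilator `A` of the submodule generated by the class of `x` in `R ⧸ (a, b)`;
so it is an associated prime (`Module.minimalPrimes_annihilator_subset_associatedPrimes`, in
`Mathlib/RingTheory/Ideal/AssociatedPrime/Localization.lean`): there is `y` with `{t : t (y x) ∈ (a, b)} = m`. By `exch`
(`u, v, w ∈ m`) `y x ∈ (a, b)`, so `1 ∈ m`, a contradiction.
-/

set_option autoImplicit false

namespace STCI.LG

universe u

theorem unmixed {R : Type u} [CommRing R] [IsNoetherianRing R] (P m : Ideal R)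
    [P.IsPrime] [m.IsMaximal] (hdim : OneDim P) (u v w a b : R)
    (hum : u ∈ m) (hvm : v ∈ m) (hwm : w ∈ m)
    (hu : ∀ z, u * z = 0 → z = 0) (hv : ∀ z, v * z ∈ Ideal.span {u} → z ∈ Ideal.span {u})
    (hw : ∀ z, w * z ∈ Ideal.span {u, v} → z ∈ Ideal.span {u, v})
    (ha : ∀ z, a * z = 0 → z = 0) (hb : ∀ z, b * z ∈ Ideal.span {a} → z ∈ Ideal.span {a})
    (hcut : CutNear P m a b) (s x : R) (hs : s ∉ P) (hx : s * x ∈ Ideal.span {a, b}) :
    ∃ t : R, t ∉ m ∧ t * x ∈ Ideal.span {a, b} := by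
  by_contra hcon
  have hmem : ∀ t y : R, t ∈ Submodule.colon (Ideal.span {a, b} : Ideal R) {y} ↔
      t * y ∈ Ideal.span {a, b} := by
    intro t y
    rw [Submodule.mem_colon_singleton, smul_eq_mul]
  have hA : Submodule.colon (Ideal.span {a, b} : Ideal R) {x} ≤ m := by
    intro t ht
    by_contra htm
    exact hcon ⟨t, htm, (hmem t x).1 ht⟩
  obtain ⟨q, hq, hqm⟩ := Ideal.exists_minimalPrimes_le hA
  have hqp : q.IsPrime := hq.1.1
  have hAq : Submodule.colon (Ideal.span {a, b} : Ideal R) {x} ≤ q := hq.1.2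
  have hNq : (Ideal.span {a, b} : Ideal R) ≤ q := by
    intro t ht
    exact hAq ((hmem t x).2 (Ideal.mul_mem_right _ _ ht))
  obtain ⟨haP, hbP, s0, hs0, hrad⟩ := hcut
  have hPq : P ≤ q := by
    intro y hy
    have h1 : s0 * y ∈ q := hqp.radical_le_iff.2 hNq (hrad y hy)
    exact (hqp.mem_or_mem h1).resolve_left (fun h => hs0 (hqm h))
  have hsq : s ∈ q := hAq ((hmem s x).2 hx)
  have hPq' : P < q := lt_of_le_of_ne hPq (fun h => hs (h ▸ hsq))
  have hqmax : q.IsMaximal := hdim q hqp hPq'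
  have hmtop : m ≠ ⊤ := Ideal.IsMaximal.ne_top inferInstance
  have hqm' : q = m := hqmax.eq_of_le hmtop hqm
  obtain ⟨y, hy⟩ := Submodule.exists_eq_colon_of_mem_minimalPrimes hq
  have hm : ∀ t ∈ m, t * y ∈ Ideal.span {a, b} := by
    intro t ht
    rw [← hqm', hy] at ht
    exact (hmem t y).1 ht
  have hy2 : y ∈ Ideal.span {a, b} :=
    exch u v w a b y hu hv hw ha hb (hm u hum) (hm v hvm) (hm w hwm)
  apply hmtop
  rw [← hqm', hy, Ideal.eq_top_iff_one, hmem, one_mul]
  exact hy2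

end STCI.LG
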